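import Mathlib

/-!
# Affine group schemes: points, Lie algebra, adjoint action

`H` is a commutative Hopf algebra over the commutative ring `k`, `G = Spec H` the corresponding affine group scheme over `k`.
`Pt k H A` is the group `G(A)` of the `A`-valued points (the group law is the convolution product of Mathlib), `LieG k H A` is the Lie
algebra of `G_A`: the `k`-linear maps `D : H → A` with `D (a b) = ε(a) D(b) + ε(b) D(a)` (tangent vectors at the unit section), with the
commutator of the convolution product as bracket. `G(A)` acts on it by conjugation (`Ad`).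
-/

set_option autoImplicit false

open Coalgebra WithConv TensorProduct

namespace Pool.Agent.Helper73.E8.GS

section

variable (k H A : Type*) [CommRing k] [CommRing H] [HopfAlgebra k H] [CommRing A] [Algebra k A]

/-- The group `G(A)`, `G = Spec H`. -/
abbrev Pt : Type _ := WithConv (H →ₐ[k] A)

/-- The convolution algebra of the `k`-linear maps `H → A`. -/
abbrev U : Type _ := WithConv (H →ₗ[k] A)

end

variable {k H A : Type*} [CommRing k] [CommRing H] [HopfAlgebra k H] [CommRing A] [Algebra k A]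

/-- A point as an element of the convolution algebra. -/
def lin (g : Pt k H A) : U k H A := toConv g.ofConv.toLinearMap

@[simp] theorem lin_apply (g : Pt k H A) (h : H) : lin g h = g h := rfl

@[simp] theorem lin_one : lin (1 : Pt k H A) = 1 := rfl

theorem lin_mul (g g' : Pt k H A) : lin (g * g') = lin g * lin g' := rfl

theorem lin_injective : Function.Injective (lin : Pt k H A → U k H A) := fun g g' h =>
  WithConv.ext (AlgHom.toLinearMap_injective (WithConv.toConv_injective h))

/-- The inverse of a point (composition with the antipode). -/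
noncomputable instance : Inv (Pt k H A) where
  inv g := toConv (g.ofConv.comp (HopfAlgebra.antipodeAlgHom k H))

@[simp] theorem inv_apply (g : Pt k H A) (h : H) : g⁻¹ h = g (HopfAlgebra.antipode k h) := rfl

theorem lin_inv_mul (g : Pt k H A) : lin g⁻¹ * lin g = 1 := by
  apply WithConv.ofConv_injective
  have h1 := LinearMap.algHom_comp_convMul_distrib g.ofConv (toConv (HopfAlgebra.antipode k (A := H))) (toConv LinearMap.id)
  rw [LinearMap.antipode_mul_id] at h1
  refine h1.symm.trans (LinearMap.ext fun h => ?_)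
  exact AlgHom.commutes g.ofConv (counit h)

/-- The group structure of `G(A)`; the multiplication is Mathlib's convolution product. -/
noncomputable instance : Group (Pt k H A) where
  inv_mul_cancel g := lin_injective (lin_inv_mul g)

theorem lin_mul_inv (g : Pt k H A) : lin g * lin g⁻¹ = 1 := by rw [← lin_mul, mul_inv_cancel, lin_one]

theorem one_apply (h : H) : (1 : U k H A) h = algebraMap k A (counit h) := rfl

/-! ### Multiplicativity -/

/-- `a ⊗ b ↦ φ(a) ψ(b)`. -/
noncomputable def ten (φ ψ : U k H A) : WithConv (H ⊗[k] H →ₗ[k] A) :=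
  toConv (LinearMap.mul' k A ∘ₗ TensorProduct.map φ.ofConv ψ.ofConv)

@[simp] theorem ten_tmul (φ ψ : U k H A) (a b : H) : ten φ ψ (a ⊗ₜ b) = φ a * ψ b := by
  simp [ten]

theorem ten_mul (φ ψ φ' ψ' : U k H A) : ten φ ψ * ten φ' ψ' = ten (φ * φ') (ψ * ψ') := by
  apply WithConv.ofConv_injective
  have h1 := LinearMap.algHom_comp_convMul_distrib (Algebra.TensorProduct.lmul' k (S := A))
    (toConv (TensorProduct.map φ.ofConv ψ.ofConv)) (toConv (TensorProduct.map φ'.ofConv ψ'.ofConv))
  rw [TensorProduct.map_convMul_map] at h1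
  exact h1.symm

theorem ten_ext {φ ψ : WithConv (H ⊗[k] H →ₗ[k] A)} (h : ∀ a b, φ (a ⊗ₜ b) = ψ (a ⊗ₜ b)) : φ = ψ := by
  apply WithConv.ofConv_injective
  exact TensorProduct.ext' h

theorem ten_one_one : ten (1 : U k H A) 1 = 1 := by
  refine ten_ext fun a b => ?_
  rw [ten_tmul, one_apply, one_apply, LinearMap.convOne_apply, TensorProduct.counit_tmul, smul_eq_mul, map_mul, mul_comm]

theorem ten_add_left (φ φ' ψ : U k H A) : ten (φ + φ') ψ = ten φ ψ + ten φ' ψ := by
  refine ten_ext fun a b => ?_
  change _ = ten φ ψ (a ⊗ₜ b) + ten φ' ψ (a ⊗ₜ b)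
  rw [ten_tmul, ten_tmul, ten_tmul, ← add_mul]
  rfl

theorem ten_add_right (φ ψ ψ' : U k H A) : ten φ (ψ + ψ') = ten φ ψ + ten φ ψ' := by
  refine ten_ext fun a b => ?_
  change _ = ten φ ψ (a ⊗ₜ b) + ten φ ψ' (a ⊗ₜ b)
  rw [ten_tmul, ten_tmul, ten_tmul, ← mul_add]
  rfl

variable (k H A) in
/-- `φ ↦ φ ⊗ ε`. -/
noncomputable def j1 : U k H A →+* WithConv (H ⊗[k] H →ₗ[k] A) where
  toFun φ := ten φ 1
  map_one' := ten_one_one
  map_mul' φ ψ := by rw [ten_mul, mul_one]
  map_zero' := ten_ext fun a b => by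
    rw [ten_tmul]
    exact zero_mul _
  map_add' φ ψ := ten_add_left φ ψ 1

variable (k H A) in
/-- `φ ↦ ε ⊗ φ`. -/
noncomputable def j2 : U k H A →+* WithConv (H ⊗[k] H →ₗ[k] A) where
  toFun φ := ten 1 φ
  map_one' := ten_one_one
  map_mul' φ ψ := by rw [ten_mul, mul_one]
  map_zero' := ten_ext fun a b => by
    rw [ten_tmul]
    exact mul_zero _
  map_add' φ ψ := ten_add_right 1 φ ψ

theorem j1_mul_j2 (φ ψ : U k H A) : j1 k H A φ * j2 k H A ψ = ten φ ψ := by
  change ten φ 1 * ten 1 ψ = _
  rw [ten_mul, mul_one, one_mul]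

theorem j2_mul_j1 (φ ψ : U k H A) : j2 k H A ψ * j1 k H A φ = ten φ ψ := by
  change ten 1 ψ * ten φ 1 = _
  rw [ten_mul, mul_one, one_mul]

theorem j_comm (φ ψ : U k H A) : Commute (j1 k H A φ) (j2 k H A ψ) := by
  rw [commute_iff_eq, j1_mul_j2, j2_mul_j1]

variable (k H A) in
/-- `φ ↦ (a ⊗ b ↦ φ(a b))`. -/
noncomputable def mm : U k H A →+* WithConv (H ⊗[k] H →ₗ[k] A) where
  toFun φ := toConv (φ.ofConv.comp (LinearMap.mul' k H))
  map_one' := ten_ext fun a b => by
    change algebraMap k A (counit (a * b)) = _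
    rw [LinearMap.convOne_apply, TensorProduct.counit_tmul, Bialgebra.counit_mul, smul_eq_mul, mul_comm]
  map_mul' φ ψ := by
    apply WithConv.ofConv_injective
    exact LinearMap.convMul_comp_coalgHom_distrib φ ψ (Bialgebra.mulCoalgHom k H)
  map_zero' := rfl
  map_add' φ ψ := rfl

@[simp] theorem mm_tmul (φ : U k H A) (a b : H) : mm k H A φ (a ⊗ₜ b) = φ (a * b) := rfl

/-! ### The Lie algebra -/

/-- `D` is a tangent vector at the unit section. -/
def IsDer (D : U k H A) : Prop := ∀ a b : H, D (a * b) = counit (R := k) a • D b + counit (R := k) b • D a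

theorem isDer_iff {D : U k H A} : IsDer D ↔ mm k H A D = j1 k H A D + j2 k H A D := by
  constructor
  · intro h
    refine ten_ext fun a b => ?_
    change D (a * b) = ten D 1 (a ⊗ₜ b) + ten 1 D (a ⊗ₜ b)
    rw [h, ten_tmul, ten_tmul, one_apply, one_apply, Algebra.smul_def, Algebra.smul_def]
    ring
  · intro h a b
    have h1 := congrArg (fun φ : WithConv (H ⊗[k] H →ₗ[k] A) => φ (a ⊗ₜ b)) h
    change D (a * b) = ten D 1 (a ⊗ₜ b) + ten 1 D (a ⊗ₜ b) at h1
    rw [h1, ten_tmul, ten_tmul, one_apply, one_apply, Algebra.smul_def, Algebra.smul_def]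
    ring

theorem IsDer.commutator {D E : U k H A} (hD : IsDer D) (hE : IsDer E) : IsDer (D * E - E * D) := by
  rw [isDer_iff] at hD hE ⊢
  rw [map_sub, map_mul, map_mul, hD, hE, map_sub, map_sub, map_mul, map_mul, map_mul, map_mul]
  have h1 := (j_comm D E).eq
  have h2 := (j_comm E D).eq
  simp only [add_mul, mul_add, h1, h2]
  abel

theorem mm_lin (g : Pt k H A) : mm k H A (lin g) = j1 k H A (lin g) * j2 k H A (lin g) := by
  rw [j1_mul_j2]
  refine ten_ext fun a b => ?_
  rw [mm_tmul, ten_tmul, lin_apply, lin_apply, lin_apply]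
  exact map_mul g.ofConv a b

theorem IsDer.conj {D : U k H A} (hD : IsDer D) (g : Pt k H A) : IsDer (lin g * D * lin g⁻¹) := by
  rw [isDer_iff] at hD ⊢
  rw [map_mul, map_mul, hD, mm_lin, mm_lin, map_mul, map_mul, map_mul, map_mul]
  have h1 : j1 k H A (lin g) * j1 k H A (lin g⁻¹) = 1 := by rw [← map_mul, lin_mul_inv, map_one]
  have h2 : j2 k H A (lin g) * j2 k H A (lin g⁻¹) = 1 := by rw [← map_mul, lin_mul_inv, map_one]
  have c1 := (j_comm (lin g) (lin g)).eq
  have c2 := (j_comm (lin g⁻¹) (lin g⁻¹)).eq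
  have c3 := (j_comm D (lin g)).eq
  have c4 := (j_comm (lin g⁻¹) (lin g)).eq
  have c5 := (j_comm (lin g⁻¹) D).eq
  have c6 := (j_comm D (lin g⁻¹)).eq
  calc j1 k H A (lin g) * j2 k H A (lin g) * (j1 k H A D + j2 k H A D) * (j1 k H A (lin g⁻¹) * j2 k H A (lin g⁻¹))
      = j1 k H A (lin g) * (j2 k H A (lin g) * j1 k H A D) * (j1 k H A (lin g⁻¹) * j2 k H A (lin g⁻¹)) +
        j1 k H A (lin g) * j2 k H A (lin g) * (j2 k H A D * j1 k H A (lin g⁻¹)) * j2 k H A (lin g⁻¹) := by
          simp only [mul_add, add_mul, mul_assoc]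
    _ = j1 k H A (lin g) * j1 k H A D * (j2 k H A (lin g) * j1 k H A (lin g⁻¹)) * j2 k H A (lin g⁻¹) +
        j1 k H A (lin g) * (j2 k H A (lin g) * j1 k H A (lin g⁻¹)) * j2 k H A D * j2 k H A (lin g⁻¹) := by
          rw [← c3, ← c5]
          simp only [mul_assoc]
    _ = j1 k H A (lin g) * j1 k H A D * j1 k H A (lin g⁻¹) * (j2 k H A (lin g) * j2 k H A (lin g⁻¹)) +
        (j1 k H A (lin g) * j1 k H A (lin g⁻¹)) * (j2 k H A (lin g) * j2 k H A D * j2 k H A (lin g⁻¹)) := by
          rw [← c4]
          simp only [mul_assoc]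
    _ = _ := by
          rw [h1, h2, one_mul, mul_one]

variable (k H A) in
/-- The Lie algebra of `G_A`. -/
noncomputable def LieG : Submodule A (U k H A) where
  carrier := {D | IsDer D}
  add_mem' := by
    intro D E hD hE a b
    change D (a * b) + E (a * b) = _ • (D b + E b) + _ • (D a + E a)
    rw [hD, hE, smul_add, smul_add]
    abel
  zero_mem' := by
    intro a b
    change (0 : A) = _ • (0 : A) + _ • (0 : A)
    rw [smul_zero, smul_zero, add_zero]
  smul_mem' := by
    intro r D hD a b
    change r • D (a * b) = _ • (r • D b) + _ • (r • D a)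
    rw [hD, smul_add, smul_comm r, smul_comm r]

theorem mem_LieG {D : U k H A} : D ∈ LieG k H A ↔ IsDer D := Iff.rfl

noncomputable instance : Bracket (LieG k H A) (LieG k H A) where
  bracket D E := ⟨D.1 * E.1 - E.1 * D.1, IsDer.commutator D.2 E.2⟩

@[simp] theorem bracket_val (D E : LieG k H A) : (⁅D, E⁆ : LieG k H A).1 = D.1 * E.1 - E.1 * D.1 := rfl

noncomputable instance : LieRing (LieG k H A) where
  add_lie x y z := Subtype.ext (by
    simp only [bracket_val, Submodule.coe_add, add_mul, mul_add]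
    abel)
  lie_add x y z := Subtype.ext (by
    simp only [bracket_val, Submodule.coe_add, add_mul, mul_add]
    abel)
  lie_self x := Subtype.ext (by simp only [bracket_val, sub_self]; rfl)
  leibniz_lie x y z := Subtype.ext (by
    simp only [bracket_val, Submodule.coe_add, mul_sub, sub_mul, mul_assoc]
    abel)

noncomputable instance : LieAlgebra A (LieG k H A) where
  lie_smul r x y := Subtype.ext (by
    simp only [bracket_val, Submodule.coe_smul, mul_smul_comm, smul_mul_assoc, smul_sub])

/-- The adjoint action of `G(A)` on the Lie algebra of `G_A`. -/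
noncomputable def Ad (g : Pt k H A) (D : LieG k H A) : LieG k H A := ⟨lin g * D.1 * lin g⁻¹, IsDer.conj D.2 g⟩

@[simp] theorem Ad_val (g : Pt k H A) (D : LieG k H A) : (Ad g D).1 = lin g * D.1 * lin g⁻¹ := rfl

/-- The image of a point under a change of coefficients. -/
def Pt.bc {A' : Type*} [CommRing A'] [Algebra k A'] (φ : A →ₐ[k] A') (g : Pt k H A) : Pt k H A' :=
  toConv (φ.comp g.ofConv)

end Pool.Agent.Helper73.E8.GS
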