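import Pool.Agent.Helper73.E8.GS.Loc

/-!
# Block E8-GSEXP: one-parameter subgroups

Let `D ∈ LieG ℤ H ℝ`.
* `pow_mul`: apply the ring homomorphism `mm` (`a ⊗ b ↦ φ(a b)`): `mm (D ^ n) = (j1 D + j2 D) ^ n` (`isDer_iff`), `Commute.add_pow` (`j_comm`),
  and evaluate at `a ⊗ b` (`j1_mul_j2`, `ten_tmul`).
* `pow_one_apply`: `D 1 = 0` (`D (1 * 1) = 2 D 1`), `comul 1 = 1 ⊗ 1`, so `(D ^ (n + 1)) 1 = (D ^ n) 1 * D 1 = 0`.
* `hasSum_exp`: by `exists_rep` `(D ^ n) h = u ⬝ M ^ n v` with `M = ρ D`, so `∑ t^n / n! (D ^ n) h` converges absolutely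
  (`NormedSpace.expSeries` of the matrix `t M`, or a bound `|(M^n)_ij| ≤ (m c)^n`).
* `exists_exp`: `x h := ∑' n, t^n / n! (D ^ n) h` is additive, `x 1 = 1`, `x (a b) = x a * x b` by `pow_mul` and the Cauchy product
  (`tsum_mul_tsum_eq_tsum_sum_antidiagonal_of_summable_norm`, `Nat.choose`). For a representation `ρ` as in `IsRep`:
  `ρ(x)_ij = ∑_h c_h x(h) = ∑_n t^n/n! ρ(D ^ n)_ij = (exp (t ρ(D)))_ij`.
-/

set_option autoImplicit false

open Coalgebra WithConv TensorProduct Matrix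

namespace Pool.Agent.Helper73.E8.GS

variable {H : Type} [CommRing H] [HopfAlgebra ℤ H]

private theorem add67 {k H A : Type*} [CommRing k] [CommRing H] [HopfAlgebra k H] [CommRing A] [Algebra k A]
    (φ : U k H A) (a b : H) : φ (a + b) = φ a + φ b := φ.ofConv.map_add a b

private theorem powten67 {k H A : Type*} [CommRing k] [CommRing H] [HopfAlgebra k H] [CommRing A] [Algebra k A]
    {D : U k H A} (hD : IsDer D) (n : ℕ) (a b : H) :
    (D ^ n) (a * b) = ∑ p ∈ Finset.HasAntidiagonal.antidiagonal n, (n.choose p.1 : A) * ((D ^ p.1) a * (D ^ p.2) b) := by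
  have h1 : mm k H A (D ^ n) = ∑ p ∈ Finset.HasAntidiagonal.antidiagonal n, n.choose p.1 • ten (D ^ p.1) (D ^ p.2) := by
    rw [map_pow, isDer_iff.1 hD, (j_comm D D).add_pow']
    refine Finset.sum_congr rfl fun p _ => ?_
    rw [← map_pow, ← map_pow, j1_mul_j2]
  have h3 := congrArg (fun φ : WithConv (H ⊗[k] H →ₗ[k] A) => φ (a ⊗ₜ b)) h1
  have h4 : ∀ (s : Finset (ℕ × ℕ)) (F : ℕ × ℕ → WithConv (H ⊗[k] H →ₗ[k] A)),
      (∑ p ∈ s, F p) (a ⊗ₜ b) = ∑ p ∈ s, F p (a ⊗ₜ b) := by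
    intro s F
    classical
    induction s using Finset.induction_on with
    | empty => rfl
    | insert p s hp ih =>
      rw [Finset.sum_insert hp, Finset.sum_insert hp, ← ih]
      rfl
  have h5 : ∀ (m : ℕ) (F : WithConv (H ⊗[k] H →ₗ[k] A)), (m • F) (a ⊗ₜ b) = (m : A) * F (a ⊗ₜ b) := by
    intro m F
    induction m with
    | zero =>
      rw [zero_smul, Nat.cast_zero, zero_mul]
      rfl
    | succ m ih =>
      rw [succ_nsmul, Nat.cast_succ, add_mul, one_mul, ← ih]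
      rfl
  have h6 : (D ^ n) (a * b) = ∑ p ∈ Finset.HasAntidiagonal.antidiagonal n,
      (n.choose p.1 • ten (D ^ p.1) (D ^ p.2)) (a ⊗ₜ b) := by
    refine Eq.trans ?_ (h3.trans ?_)
    · rfl
    · exact h4 _ _
  rw [h6]
  refine Finset.sum_congr rfl fun p _ => ?_
  rw [h5, ten_tmul]

private theorem powone67 {k H A : Type*} [CommRing k] [CommRing H] [HopfAlgebra k H] [CommRing A] [Algebra k A]
    {D : U k H A} (hD : IsDer D) (n : ℕ) : (D ^ (n + 1)) (1 : H) = 0 := by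
  have h0 : D (1 : H) = 0 := by
    have h1 := hD 1 1
    rw [mul_one, Bialgebra.counit_one, one_smul] at h1
    exact left_eq_add.1 h1
  induction n with
  | zero => rw [zero_add, pow_one, h0]
  | succ n ih =>
    rw [pow_succ]
    have h1 : ((D ^ (n + 1)) * D) (1 : H) = (D ^ (n + 1)) (1 : H) * D (1 : H) := by
      rw [LinearMap.convMul_apply, Bialgebra.comul_one]
      simp [Algebra.TensorProduct.one_def]
    rw [h1, h0, mul_zero]

private theorem hasSum_entry67 {m : ℕ} (M : Matrix (Fin m) (Fin m) ℝ) (t : ℝ) (i j : Fin m) :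
    HasSum (fun n : ℕ => ((t ^ n / (n.factorial : ℝ)) • M ^ n) i j) (NormedSpace.exp (t • M) i j) := by
  let _ : NormedRing (Matrix (Fin m) (Fin m) ℝ) := Matrix.linftyOpNormedRing
  let _ : NormedAlgebra ℝ (Matrix (Fin m) (Fin m) ℝ) := Matrix.linftyOpNormedAlgebra
  have h1 := NormedSpace.exp_series_hasSum_exp' (𝕂 := ℝ) (t • M)
  have h2 : HasSum (fun n : ℕ => (t ^ n / (n.factorial : ℝ)) • M ^ n) (NormedSpace.exp (t • M)) := by
    have e1 : (fun n : ℕ => (t ^ n / (n.factorial : ℝ)) • M ^ n) = fun n : ℕ => ((n.factorial : ℝ)⁻¹) • (t • M) ^ n := by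
      funext n
      rw [smul_pow, smul_smul, div_eq_inv_mul]
    rw [e1]
    exact h1
  exact (Pi.hasSum.1 ((Pi.hasSum.1 h2) i)) j

private theorem summable67 (D : LieG ℤ H ℝ) (t : ℝ) (h : H) :
    Summable fun n : ℕ => t ^ n / (n.factorial : ℝ) * (D.1 ^ n) h := by
  obtain ⟨m, ρ, u, v, -, hu⟩ := exists_rep h
  have h1 : Summable fun n : ℕ => ∑ i, u i * ∑ j, ((t ^ n / (n.factorial : ℝ)) • (ρ D.1) ^ n) i j * v j := by
    refine summable_sum fun i _ => ?_
    refine Summable.mul_left _ ?_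
    refine summable_sum fun j _ => ?_
    exact (hasSum_entry67 (ρ D.1) t i j).summable.mul_right _
  refine h1.congr fun n => ?_
  rw [hu, map_pow]
  simp only [dotProduct, mulVec, Matrix.smul_apply, smul_eq_mul, Finset.mul_sum]
  refine Finset.sum_congr rfl fun i _ => Finset.sum_congr rfl fun j _ => ?_
  ring

theorem pow_mul_apply (D : LieG ℤ H ℝ) (n : ℕ) (a b : H) :
    (D.1 ^ n) (a * b) = ∑ p ∈ Finset.HasAntidiagonal.antidiagonal n, (n.choose p.1 : ℝ) * ((D.1 ^ p.1) a * (D.1 ^ p.2) b) := by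
  exact powten67 (mem_LieG.1 D.2) n a b

theorem pow_one_apply (D : LieG ℤ H ℝ) (n : ℕ) : (D.1 ^ (n + 1)) (1 : H) = 0 := by
  exact powone67 (mem_LieG.1 D.2) n

theorem summable_exp (D : LieG ℤ H ℝ) (t : ℝ) (h : H) :
    Summable fun n : ℕ => ‖t ^ n / (n.factorial : ℝ) * (D.1 ^ n) h‖ := by
  exact (summable67 D t h).norm

theorem exists_exp (D : LieG ℤ H ℝ) (t : ℝ) : ∃ x : Pt ℤ H ℝ, ∀ (m : ℕ) (ρ : U ℤ H ℝ →ₐ[ℝ] Matrix (Fin m) (Fin m) ℝ), IsRep ρ →
    ρ (lin x) = NormedSpace.exp (t • ρ D.1) := by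
  have hs : ∀ h : H, Summable fun n : ℕ => t ^ n / (n.factorial : ℝ) * (D.1 ^ n) h := fun h => summable67 D t h
  have hadd : ∀ a b : H, (∑' n : ℕ, t ^ n / (n.factorial : ℝ) * (D.1 ^ n) (a + b)) =
      (∑' n : ℕ, t ^ n / (n.factorial : ℝ) * (D.1 ^ n) a) + ∑' n : ℕ, t ^ n / (n.factorial : ℝ) * (D.1 ^ n) b := by
    intro a b
    rw [← (hs a).tsum_add (hs b)]
    refine tsum_congr fun n => ?_
    have h1 : (D.1 ^ n) (a + b) = (D.1 ^ n) a + (D.1 ^ n) b := add67 (D.1 ^ n) a b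
    rw [h1, mul_add]
  have hone : (∑' n : ℕ, t ^ n / (n.factorial : ℝ) * (D.1 ^ n) (1 : H)) = 1 := by
    rw [tsum_eq_single 0]
    · rw [pow_zero, pow_zero, Nat.factorial_zero, Nat.cast_one, div_one, one_mul, one_apply, Bialgebra.counit_one, map_one]
    · intro n hn
      obtain ⟨m, rfl⟩ := Nat.exists_eq_succ_of_ne_zero hn
      rw [Nat.succ_eq_add_one, pow_one_apply, mul_zero]
  have hmul : ∀ a b : H, (∑' n : ℕ, t ^ n / (n.factorial : ℝ) * (D.1 ^ n) (a * b)) =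
      (∑' n : ℕ, t ^ n / (n.factorial : ℝ) * (D.1 ^ n) a) * ∑' n : ℕ, t ^ n / (n.factorial : ℝ) * (D.1 ^ n) b := by
    intro a b
    rw [tsum_mul_tsum_eq_tsum_sum_antidiagonal_of_summable_norm (summable_exp D t a) (summable_exp D t b)]
    refine tsum_congr fun n => ?_
    rw [pow_mul_apply, Finset.mul_sum]
    refine Finset.sum_congr rfl fun p hp => ?_
    have hpn : p.1 + p.2 = n := Finset.HasAntidiagonal.mem_antidiagonal.1 hp
    have hc := Nat.choose_mul_factorial_mul_factorial (show p.1 ≤ n by omega)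
    rw [show n - p.1 = p.2 by omega] at hc
    have hc' : (n.choose p.1 : ℝ) * (p.1.factorial : ℝ) * (p.2.factorial : ℝ) = (n.factorial : ℝ) := by exact_mod_cast hc
    have e1 : (p.1.factorial : ℝ) ≠ 0 := by exact_mod_cast Nat.factorial_ne_zero _
    have e2 : (p.2.factorial : ℝ) ≠ 0 := by exact_mod_cast Nat.factorial_ne_zero _
    have e3 : (n.factorial : ℝ) ≠ 0 := by exact_mod_cast Nat.factorial_ne_zero _
    have e4 : t ^ n = t ^ p.1 * t ^ p.2 := by rw [← pow_add, hpn]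
    rw [e4]
    field_simp
    rw [← hc']
    ring
  let f : H →+* ℝ :=
    { toFun := fun h => ∑' n : ℕ, t ^ n / (n.factorial : ℝ) * (D.1 ^ n) h
      map_one' := hone
      map_mul' := hmul
      map_zero' := by
        have h1 := hadd 0 0
        rw [add_zero] at h1
        linarith
      map_add' := hadd }
  have hf : ∀ h : H, f h = ∑' n : ℕ, t ^ n / (n.factorial : ℝ) * (D.1 ^ n) h := fun h => rfl
  let g : H →ₐ[ℤ] ℝ :=
    { f with
      commutes' := fun n => RingHom.congr_fun (Subsingleton.elim (f.comp (algebraMap ℤ H)) (algebraMap ℤ ℝ)) n }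
  refine ⟨toConv g, fun m ρ hρ => ?_⟩
  have hx : ∀ h : H, lin (toConv g : Pt ℤ H ℝ) h = ∑' n : ℕ, t ^ n / (n.factorial : ℝ) * (D.1 ^ n) h := fun h => rfl
  ext i j
  obtain ⟨s, c, hc⟩ := hρ.entries i j
  rw [hc]
  have h1 : HasSum (fun n : ℕ => ((t ^ n / (n.factorial : ℝ)) • (ρ D.1) ^ n) i j) (NormedSpace.exp (t • ρ D.1) i j) :=
    hasSum_entry67 (ρ D.1) t i j
  have h2 : HasSum (fun n : ℕ => ∑ h ∈ s, c h * (t ^ n / (n.factorial : ℝ) * (D.1 ^ n) h))
      (∑ h ∈ s, c h * lin (toConv g : Pt ℤ H ℝ) h) := by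
    refine hasSum_sum fun h _ => ?_
    rw [hx]
    exact (hs h).hasSum.mul_left (c h)
  refine h2.unique ?_
  have e1 : (fun n : ℕ => ∑ h ∈ s, c h * (t ^ n / (n.factorial : ℝ) * (D.1 ^ n) h)) =
      fun n : ℕ => ((t ^ n / (n.factorial : ℝ)) • (ρ D.1) ^ n) i j := by
    funext n
    rw [← map_pow, Matrix.smul_apply, hc, smul_eq_mul, Finset.mul_sum]
    refine Finset.sum_congr rfl fun h _ => ?_
    ring
  rw [e1]
  exact h1

end Pool.Agent.Helper73.E8.GS
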