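import Pool.Agent.Helper73.E8.GS.Defs

/-!
# Block E8-GSFIN: the Lie algebra of a group scheme of finite type over `ℤ`, change of coefficients

`H` is a commutative Hopf algebra over `ℤ`, of finite type. `LZ H` is the Lie ring of the `ℤ`-valued tangent vectors (a type synonym of
`LieG ℤ H ℤ`, so that its only `ℤ`-module structure is `AddCommGroup.toIntModule`).

Proof. Let `h₁, ..., h_n` generate the algebra `H`. An element `D` of `LieG ℤ H A` is determined by the values `D h_i` (the set of `h` where two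
such maps agree is a subalgebra: `D 1 = 0`, `D (a b) = ε(a) D(b) + ε(b) D(a)`), so `LZ H → ℤ^n` is injective: `LZ H` is finite and free.
For the change of coefficients let `A` be flat (= torsion free) over `ℤ`. Let `ε : ℤ[X₁, ..., X_n] → H → ℤ` and `N ⊆ ℤ^n` be the subgroup of all
vectors `(∂F/∂X_j (ε(h)))_j`, `F` in the kernel of `ℤ[X] → H` (`MvPolynomial.pderiv`). `v ∈ A^n` is of the form `(D h_j)_j` with
`D ∈ LieG ℤ H A` iff `∑ n_j v_j = 0` for all `n ∈ N` (given such a `v`, `F ↦ ∑ ∂F/∂X_j(ε(h)) v_j` is a derivation of `ℤ[X]` which kills the kernel).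
`N` is finitely generated, so `LieG ℤ H A` is the kernel of a matrix `A^n → A^m` with coefficients in `ℤ`, and taking kernels commutes with
the flat base change `ℤ → A`. (Other proof: `LieG ℤ H A = Hom_ℤ(ω, A)` with `ω = ℤ ⊗_H Ω[H⁄ℤ]` finitely generated (`KaehlerDifferential` is finite),
`ω = ℤ^r ⊕ torsion`, and `Hom(torsion, A) = 0`, `Hom(ℤ^r, A) = A^r`.)
The map `e` is `a ⊗ D ↦ (h ↦ a * D h)`; it preserves brackets (the convolution product is bilinear; `Coalgebra.Repr`).
-/

set_option autoImplicit false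

open Coalgebra WithConv TensorProduct

namespace Pool.Agent.Helper73.E8.GS

section general68

variable (k H : Type) [CommRing k] [CommRing H] [HopfAlgebra k H]

/-- The constants and the products of two elements with counit `0`. -/
private def W68 : Submodule k H :=
  Submodule.span k {x | x = 1 ∨ ∃ a b : H, counit (R := k) a = 0 ∧ counit (R := k) b = 0 ∧ x = a * b}

private lemma one_mem_W68 : (1 : H) ∈ W68 k H := Submodule.subset_span (Or.inl rfl)

private lemma rel68 (a b : H) :
    a * b - (counit (R := k) a • b + counit (R := k) b • a) ∈ W68 k H := by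
  have h0 : ∀ x : H, counit (R := k) (x - counit (R := k) x • 1) = 0 := by
    intro x
    rw [map_sub, map_smul, Bialgebra.counit_one, smul_eq_mul, mul_one, sub_self]
  have h1 : (a - counit (R := k) a • 1) * (b - counit (R := k) b • 1) ∈ W68 k H :=
    Submodule.subset_span (Or.inr ⟨_, _, h0 a, h0 b, rfl⟩)
  have h2 : a * b - (counit (R := k) a • b + counit (R := k) b • a) =
      (a - counit (R := k) a • 1) * (b - counit (R := k) b • 1) -
        (counit (R := k) a * counit (R := k) b) • (1 : H) := by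
    simp only [Algebra.smul_def, mul_one, map_mul]
    ring
  rw [h2]
  exact sub_mem h1 (Submodule.smul_mem _ _ (one_mem_W68 k H))

private lemma mkQ_mul68 (a b : H) : (W68 k H).mkQ (a * b) =
    counit (R := k) a • (W68 k H).mkQ b + counit (R := k) b • (W68 k H).mkQ a := by
  rw [← map_smul, ← map_smul, ← map_add, ← sub_eq_zero, ← map_sub, Submodule.mkQ_apply,
    Submodule.Quotient.mk_eq_zero]
  exact rel68 k H a b

private lemma finite68 [Algebra.FiniteType k H] : Module.Finite k (H ⧸ W68 k H) := by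
  classical
  obtain ⟨S, hS⟩ := (Algebra.FiniteType.out : (⊤ : Subalgebra k H).FG)
  refine ⟨⟨S.image (W68 k H).mkQ, ?_⟩⟩
  rw [eq_top_iff]
  rintro y -
  obtain ⟨h, rfl⟩ := Submodule.mkQ_surjective _ y
  have hh : h ∈ Algebra.adjoin k (S : Set H) := by
    rw [hS]
    trivial
  induction hh using Algebra.adjoin_induction with
  | mem x hx => exact Submodule.subset_span (Finset.mem_coe.2 (Finset.mem_image_of_mem _ hx))
  | algebraMap r =>
    have h1 : (W68 k H).mkQ (algebraMap k H r) = 0 := by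
      rw [Submodule.mkQ_apply, Submodule.Quotient.mk_eq_zero, Algebra.algebraMap_eq_smul_one]
      exact Submodule.smul_mem _ _ (one_mem_W68 k H)
    rw [h1]
    exact zero_mem _
  | add x y _ _ hx hy =>
    rw [map_add]
    exact add_mem hx hy
  | mul x y _ _ hx hy =>
    rw [mkQ_mul68]
    exact add_mem (Submodule.smul_mem _ _ hy) (Submodule.smul_mem _ _ hx)


/-- The torsion free cotangent space. -/
private abbrev Ot68 : Type := (H ⧸ W68 k H) ⧸ Submodule.torsion k (H ⧸ W68 k H)

/-- The universal derivation. -/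
private def dl68 : H →ₗ[k] Ot68 k H := (Submodule.torsion k (H ⧸ W68 k H)).mkQ ∘ₗ (W68 k H).mkQ

private lemma dl_mul68 (a b : H) : dl68 k H (a * b) =
    counit (R := k) a • dl68 k H b + counit (R := k) b • dl68 k H a := by
  unfold dl68
  rw [LinearMap.comp_apply, mkQ_mul68, map_add, map_smul, map_smul]
  rfl

private lemma dl_surj68 : Function.Surjective (dl68 k H) := by
  unfold dl68
  rw [LinearMap.coe_comp]
  exact (Submodule.mkQ_surjective _).comp (Submodule.mkQ_surjective _)

private lemma factor68 [IsDomain k] {A : Type} [CommRing A] [Algebra k A] [Module.IsTorsionFree k A] (D : LieG k H A) :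
    ∃ φ : Ot68 k H →ₗ[k] A, ∀ h, φ (dl68 k H h) = D.1 h := by
  have hD : IsDer D.1 := D.2
  have h1 : D.1 (1 : H) = 0 := by
    have h2 := hD 1 1
    rw [mul_one, Bialgebra.counit_one, one_smul] at h2
    exact left_eq_add.1 h2
  have hW : W68 k H ≤ LinearMap.ker D.1.ofConv := by
    unfold W68
    rw [Submodule.span_le]
    rintro x (rfl | ⟨a, b, ha, hb, rfl⟩)
    · exact h1
    · have h2 := hD a b
      rw [ha, hb, zero_smul, zero_smul, add_zero] at h2
      exact h2
  have hT : Submodule.torsion k (H ⧸ W68 k H) ≤ LinearMap.ker ((W68 k H).liftQ D.1.ofConv hW) := by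
    intro x hx
    obtain ⟨a, ha⟩ := (Submodule.mem_torsion_iff x).1 hx
    have h2 : (a : k) • ((W68 k H).liftQ D.1.ofConv hW) x = 0 := by
      rw [← map_smul]
      have h3 : (a : k) • x = 0 := ha
      rw [h3, map_zero]
    exact (smul_eq_zero.1 h2).resolve_left (nonZeroDivisors.ne_zero a.2)
  exact ⟨(Submodule.torsion k (H ⧸ W68 k H)).liftQ _ hT, fun h => rfl⟩

private lemma free68 [IsDomain k] [IsPrincipalIdealRing k] [Algebra.FiniteType k H] : Module.Free k (Ot68 k H) := by
  have := finite68 k H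
  infer_instance

private lemma fin68 [Algebra.FiniteType k H] : Module.Finite k (Ot68 k H) := by
  have := finite68 k H
  infer_instance

/-- The derivation given by a linear map on the torsion free cotangent space. -/
private def Phi68 (A : Type) [CommRing A] [Algebra k A] : (Ot68 k H →ₗ[k] A) →ₗ[A] LieG k H A where
  toFun φ := ⟨toConv (φ ∘ₗ dl68 k H), by
    intro a b
    change φ (dl68 k H (a * b)) = _ • φ (dl68 k H b) + _ • φ (dl68 k H a)
    rw [dl_mul68, map_add, map_smul, map_smul]⟩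
  map_add' φ ψ := rfl
  map_smul' r φ := rfl

private lemma Phi_bij68 [IsDomain k] (A : Type) [CommRing A] [Algebra k A] [Module.IsTorsionFree k A] :
    Function.Bijective (Phi68 k H A) := by
  constructor
  · intro φ ψ h
    apply LinearMap.ext
    intro x
    obtain ⟨y, rfl⟩ := dl_surj68 k H x
    exact congrArg (fun D : LieG k H A => D.1 y) h
  · intro D
    obtain ⟨φ, hφ⟩ := factor68 k H D
    refine ⟨φ, Subtype.ext (WithConv.ofConv_injective (LinearMap.ext hφ))⟩

/-- Bases. -/
private lemma exists_basis68 [IsDomain k] [IsPrincipalIdealRing k] [Algebra.FiniteType k H] : ∃ (r : ℕ) (c : H → Fin r → k), ∀ (A : Type)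
    [CommRing A] [Algebra k A] [Module.IsTorsionFree k A], ∃ e : (Fin r → A) ≃ₗ[A] LieG k H A,
      ∀ v h, (e v).1 h = ∑ i, c h i • v i := by
  have := free68 k H
  have := fin68 k H
  let b := Module.finBasis k (Ot68 k H)
  refine ⟨_, fun h i => b.repr (dl68 k H h) i, ?_⟩
  intro A _ _ _
  refine ⟨(b.constr A).trans (LinearEquiv.ofBijective (Phi68 k H A) (Phi_bij68 k H A)), ?_⟩
  intro v h
  change b.constr A v (dl68 k H h) = _
  rw [Module.Basis.constr_apply_fintype]
  rfl

/-- Change of the coefficients in the convolution algebra. -/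
private noncomputable def bcG68 (k H : Type) [CommRing k] [CommRing H] [HopfAlgebra k H] {A A' : Type} [CommRing A]
    [Algebra k A] [CommRing A'] [Algebra k A'] (f : A →ₐ[k] A') : U k H A →+* U k H A' where
  toFun φ := toConv (f.toLinearMap ∘ₗ φ.ofConv)
  map_one' := by
    apply WithConv.ofConv_injective
    refine LinearMap.ext fun h => ?_
    exact AlgHom.commutes f (counit h)
  map_mul' φ ψ := by
    apply WithConv.ofConv_injective
    exact LinearMap.algHom_comp_convMul_distrib f φ ψ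
  map_zero' := by
    apply WithConv.ofConv_injective
    refine LinearMap.ext fun h => ?_
    exact map_zero f
  map_add' φ ψ := by
    apply WithConv.ofConv_injective
    refine LinearMap.ext fun h => ?_
    exact map_add f _ _

private lemma extU68 {k H : Type} [CommRing k] [CommRing H] [HopfAlgebra k H] {A : Type} [CommRing A]
    [Algebra k A] {φ ψ : U k H A} (h : ∀ x, φ x = ψ x) : φ = ψ := by
  apply WithConv.ofConv_injective
  exact LinearMap.ext h

end general68

variable (H : Type) [CommRing H] [HopfAlgebra ℤ H]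

/-- The Lie ring of the `ℤ`-valued tangent vectors. -/
def LZ : Type := LieG ℤ H ℤ

noncomputable instance : LieRing (LZ H) := inferInstanceAs (LieRing (LieG ℤ H ℤ))

variable {H}

/-- An element of `LZ H` as an element of the Lie algebra. -/
def LZ.val (D : LZ H) : LieG ℤ H ℤ := D

private lemma Ad_lie68 {A : Type} [CommRing A] (g : Pt ℤ H A) (D E : LieG ℤ H A) : Ad g ⁅D, E⁆ = ⁅Ad g D, Ad g E⁆ := by
  apply Subtype.ext
  rw [bracket_val, Ad_val, Ad_val, Ad_val, bracket_val]
  have h1 : ∀ X Y : U ℤ H A, lin g * X * lin g⁻¹ * (lin g * Y * lin g⁻¹) = lin g * (X * Y) * lin g⁻¹ := by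
    intro X Y
    calc lin g * X * lin g⁻¹ * (lin g * Y * lin g⁻¹) = lin g * X * (lin g⁻¹ * lin g) * Y * lin g⁻¹ := by
          simp only [mul_assoc]
      _ = _ := by rw [lin_inv_mul, mul_one, mul_assoc (lin g) X Y]
  rw [h1, h1, mul_sub, sub_mul]

private lemma Ad_inv_Ad68 {A : Type} [CommRing A] (g : Pt ℤ H A) (D : LieG ℤ H A) : Ad g⁻¹ (Ad g D) = D := by
  apply Subtype.ext
  rw [Ad_val, Ad_val, inv_inv]
  calc lin g⁻¹ * (lin g * D.1 * lin g⁻¹) * lin g = (lin g⁻¹ * lin g) * D.1 * (lin g⁻¹ * lin g) := by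
        simp only [mul_assoc]
    _ = D.1 := by rw [lin_inv_mul, one_mul, mul_one]

private lemma Ad_Ad_inv68 {A : Type} [CommRing A] (g : Pt ℤ H A) (D : LieG ℤ H A) : Ad g (Ad g⁻¹ D) = D := by
  have h1 := Ad_inv_Ad68 g⁻¹ D
  rwa [inv_inv] at h1

private noncomputable def AdHom68 (g : Pt ℤ H ℤ) : LZ H →+ LZ H where
  toFun D := (Ad g D.val : LieG ℤ H ℤ)
  map_zero' := Subtype.ext (by
    change lin g * (0 : U ℤ H ℤ) * lin g⁻¹ = 0
    rw [mul_zero, zero_mul])
  map_add' D E := Subtype.ext (by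
    change lin g * (D.val.1 + E.val.1) * lin g⁻¹ = lin g * D.val.1 * lin g⁻¹ + lin g * E.val.1 * lin g⁻¹
    rw [mul_add, add_mul])

/-- The action of `G(ℤ)` on `LZ H`. -/
noncomputable def AdZ (g : Pt ℤ H ℤ) : LZ H ≃ₗ⁅ℤ⁆ LZ H where
  toFun D := (Ad g D.val : LieG ℤ H ℤ)
  map_add' D E := Subtype.ext (by
    change lin g * (D.val.1 + E.val.1) * lin g⁻¹ = lin g * D.val.1 * lin g⁻¹ + lin g * E.val.1 * lin g⁻¹
    rw [mul_add, add_mul])
  map_smul' n D := Subtype.ext (by
    exact congrArg Subtype.val (map_zsmul (AdHom68 g) n D))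
  map_lie' := by
    intro D E
    exact Ad_lie68 g D.val E.val
  invFun D := (Ad g⁻¹ D.val : LieG ℤ H ℤ)
  left_inv D := Subtype.ext (by
    exact congrArg Subtype.val (Ad_inv_Ad68 g D.val))
  right_inv D := Subtype.ext (by
    exact congrArg Subtype.val (Ad_Ad_inv68 g D.val))

theorem AdZ_val (g : Pt ℤ H ℤ) (D : LZ H) : (AdZ g D).val = Ad g D.val := rfl

variable (H) [Algebra.FiniteType ℤ H]

private lemma basisZ68 : ∃ (r : ℕ) (c : H → Fin r → ℤ), (∃ e : (Fin r → ℤ) ≃ₗ[ℤ] LZ H,
      ∀ v h, (e v).val.1 h = ∑ i, c h i * v i) ∧ ∀ (A : Type)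
    [CommRing A] [Module.Flat ℤ A], ∃ e : (Fin r → A) ≃ₗ[A] LieG ℤ H A,
      ∀ v h, (e v).1 h = ∑ i, ((c h i : ℤ) : A) * v i := by
  obtain ⟨r, c, hc⟩ := exists_basis68 ℤ H
  refine ⟨r, c, ?_, ?_⟩
  · obtain ⟨e, he⟩ := hc ℤ
    refine ⟨AddEquiv.toIntLinearEquiv (e.toAddEquiv : (Fin r → ℤ) ≃+ LZ H), ?_⟩
    intro v h
    exact he v h
  · intro A _ _
    obtain ⟨e, he⟩ := hc A
    refine ⟨e, ?_⟩
    intro v h
    rw [he v h]
    exact Finset.sum_congr rfl fun i _ => zsmul_eq_mul _ _

theorem LZ_finite : Module.Finite ℤ (LZ H) := by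
  obtain ⟨r, c, ⟨e, -⟩, -⟩ := basisZ68 H
  exact Module.Finite.equiv e

theorem LZ_free : Module.Free ℤ (LZ H) := by
  obtain ⟨r, c, ⟨e, -⟩, -⟩ := basisZ68 H
  exact Module.Free.of_equiv e

/-- Change of the coefficients in the convolution algebra. -/
private noncomputable def bcU68 (A : Type) [CommRing A] : U ℤ H ℤ →+* U ℤ H A := bcG68 ℤ H (Algebra.ofId ℤ A)

omit [Algebra.FiniteType ℤ H] in
private lemma bcU_apply68 (A : Type) [CommRing A] (φ : U ℤ H ℤ) (h : H) : bcU68 H A φ h = ((φ h : ℤ) : A) := rfl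

theorem exists_bc (A : Type) [CommRing A] [Module.Flat ℤ A] :
    ∃ e : A ⊗[ℤ] LZ H ≃ₗ⁅A⁆ LieG ℤ H A, ∀ (D : LZ H) (h : H), (e (1 ⊗ₜ D)).1 h = ((D.val.1 h : ℤ) : A) := by
  classical
  obtain ⟨r, c, ⟨eZ, heZ⟩, hA⟩ := basisZ68 H
  obtain ⟨eA, heA⟩ := hA A
  let BZ : Module.Basis (Fin r) ℤ (LZ H) := Module.Basis.ofEquivFun eZ.symm
  let BA : Module.Basis (Fin r) A (LieG ℤ H A) := Module.Basis.ofEquivFun eA.symm
  let g : A ⊗[ℤ] LZ H ≃ₗ[A] LieG ℤ H A := (BZ.baseChange A).equiv BA (Equiv.refl _)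
  have hg0 : ∀ i (h : H), (g (1 ⊗ₜ BZ i)).1 h = (((BZ i).val.1 h : ℤ) : A) := by
    intro i h
    have h1 : g (1 ⊗ₜ BZ i) = BA i := by
      have h2 : (1 : A) ⊗ₜ[ℤ] BZ i = BZ.baseChange A i := by simp
      rw [h2]
      simp only [g, Module.Basis.equiv_apply, Equiv.refl_apply]
    have h3 : BA i = eA (Pi.single i 1) := by
      simp [BA]
    have h4 : BZ i = eZ (Pi.single i 1) := by
      simp [BZ]
    rw [h1, h3, h4, heA, heZ]
    push_cast
    refine Finset.sum_congr rfl fun j _ => ?_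
    rcases eq_or_ne j i with rfl | hj
    · rw [Pi.single_eq_same, Pi.single_eq_same, Int.cast_one]
    · rw [Pi.single_eq_of_ne hj, Pi.single_eq_of_ne hj, Int.cast_zero]
  have hg : ∀ (D : LZ H) (h : H), (g (1 ⊗ₜ D)).1 h = ((D.val.1 h : ℤ) : A) := by
    intro D h
    let g1 : LZ H →+ A :=
      { toFun := fun D => (g (1 ⊗ₜ D)).1 h
        map_zero' := by
          rw [TensorProduct.tmul_zero, map_zero g]
          rfl
        map_add' := fun x y => by
          rw [TensorProduct.tmul_add, _root_.map_add g]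
          rfl }
    let g2 : LZ H →+ A :=
      { toFun := fun D => ((D.val.1 h : ℤ) : A)
        map_zero' := Int.cast_zero
        map_add' := fun x y => Int.cast_add _ _ }
    have h12 : g1.toIntLinearMap = g2.toIntLinearMap := BZ.ext fun i => hg0 i h
    exact congrArg (fun f : LZ H →ₗ[ℤ] A => f D) h12
  clear_value g
  have hgU : ∀ D : LZ H, (g (1 ⊗ₜ D)).1 = bcU68 H A D.val.1 := by
    intro D
    exact extU68 fun h => hg D h
  have hs : ∀ (s : A) (x : LZ H), g (s ⊗ₜ x) = s • g (1 ⊗ₜ x) := by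
    intro s x
    rw [← _root_.map_smul g, TensorProduct.smul_tmul', smul_eq_mul, mul_one]
  have lz : ∀ z : A ⊗[ℤ] LZ H, ⁅z, (0 : A ⊗[ℤ] LZ H)⁆ = 0 := fun z => lie_zero z
  have la : ∀ z w w' : A ⊗[ℤ] LZ H, ⁅z, w + w'⁆ = ⁅z, w⁆ + ⁅z, w'⁆ := fun z w w' => lie_add z w w'
  have hlie : ∀ z w : A ⊗[ℤ] LZ H, g ⁅z, w⁆ = ⁅g z, g w⁆ := by
    intro z w
    induction z using TensorProduct.induction_on with
    | zero => rw [zero_lie, map_zero g, zero_lie]
    | add z z' hz hz' => rw [add_lie, _root_.map_add g, _root_.map_add g, add_lie, hz, hz']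
    | tmul s x =>
      induction w using TensorProduct.induction_on with
      | zero => rw [lz, map_zero g, lie_zero]
      | add w w' hw hw' => rw [la, _root_.map_add g, _root_.map_add g, lie_add, hw, hw']
      | tmul t y =>
        rw [LieAlgebra.ExtendScalars.bracket_tmul, hs, hs s, hs t, smul_lie, lie_smul, smul_smul]
        congr 1
        apply Subtype.ext
        rw [bracket_val, hgU, hgU, hgU, ← map_mul, ← map_mul, ← map_sub]
        rfl
  let G : A ⊗[ℤ] LZ H →ₗ⁅A⁆ LieG ℤ H A := { toLinearMap := g.toLinearMap, map_lie' := @hlie }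
  exact ⟨⟨G, g.symm, fun z => g.symm_apply_apply z, fun z => g.apply_symm_apply z⟩, hg⟩

variable {H}

/-- The compatibility of the adjoint actions of `G(ℤ)` follows from the formula for `e`. -/
theorem bc_Ad {A : Type} [CommRing A] (e : A ⊗[ℤ] LZ H ≃ₗ⁅A⁆ LieG ℤ H A)
    (he : ∀ (D : LZ H) (h : H), (e (1 ⊗ₜ D)).1 h = ((D.val.1 h : ℤ) : A)) (g : Pt ℤ H ℤ) (y : A ⊗[ℤ] LZ H) :
    e (((AdZ g : LZ H →ₗ⁅ℤ⁆ LZ H) : LZ H →ₗ[ℤ] LZ H).baseChange A y) = Ad (g.bc (Algebra.ofId ℤ A)) (e y) := by
  have hgU : ∀ D : LZ H, (e (1 ⊗ₜ D)).1 = bcU68 H A D.val.1 := by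
    intro D
    exact extU68 fun h => he D h
  have hs : ∀ (s : A) (x : LZ H), e (s ⊗ₜ x) = s • e (1 ⊗ₜ x) := by
    intro s x
    rw [← _root_.map_smul e, TensorProduct.smul_tmul', smul_eq_mul, mul_one]
  have hlin : ∀ g : Pt ℤ H ℤ, lin (g.bc (Algebra.ofId ℤ A)) = bcU68 H A (lin g) := fun g => rfl
  induction y using TensorProduct.induction_on with
  | zero =>
    rw [map_zero, map_zero e]
    apply Subtype.ext
    change _ = lin _ * (0 : U ℤ H A) * lin _
    rw [mul_zero, zero_mul]
    rfl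
  | add y y' hy hy' =>
    rw [_root_.map_add, _root_.map_add e, _root_.map_add e, hy, hy']
    apply Subtype.ext
    change lin _ * (e y).1 * lin _ + lin _ * (e y').1 * lin _ = lin _ * ((e y).1 + (e y').1) * lin _
    rw [mul_add, add_mul]
  | tmul a D =>
    rw [LinearMap.baseChange_tmul, hs, hs a D]
    apply Subtype.ext
    change a • (e (1 ⊗ₜ (AdZ g D))).1 = lin _ * (a • (e (1 ⊗ₜ D)).1) * lin (g⁻¹.bc (Algebra.ofId ℤ A))
    rw [hgU, hgU, hlin, hlin, mul_smul_comm, smul_mul_assoc, ← map_mul, ← map_mul]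
    rfl

end Pool.Agent.Helper73.E8.GS
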