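import Pool.Agent.Helper73.E8.GS.Defs

/-!
# Block E8-GSLOC: local finiteness

`exists_coeff`: every element of a coalgebra over a field is a matrix coefficient of a finite dimensional comodule.
Proof. Write `comul c = ∑_i a_i ⊗ b_i` with `(a_i)` a part of a basis `(a_x)_{x ∈ X}` of `C` (expand `comul c` in a basis of the first factor; finitely many
`b_i ≠ 0`). Let `α_x` be the coordinate functionals. Apply `α_i ⊗ id ⊗ id` to `∑ (comul a_j) ⊗ b_j = ∑ a_j ⊗ comul b_j` (`coassoc`):
`comul b_i = ∑_j ((α_i ⊗ id) (comul a_j)) ⊗ b_j`. So for the finite dimensional space `Y = span (b_i)`: `comul Y ⊆ C ⊗ Y`, and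
`c = ∑ ε(a_i) b_i ∈ Y`. Choose a basis `y_1, ..., y_m` of `Y`; `comul y_i = ∑_j T_ij ⊗ y_j` with unique `T_ij ∈ C` (the `y_j` are linearly
independent). Coassociativity: `∑_j comul T_ij ⊗ y_j = ∑_l T_il ⊗ comul y_l = ∑_{l, j} T_il ⊗ T_lj ⊗ y_j`, so `comul T_ij = ∑_l T_il ⊗ T_lj`;
counit: `y_i = ∑_j ε(T_ij) y_j`, so `ε(T_ij) = δ_ij`; and `y_i = ∑_j ε(y_j) T_ij` (other counit axiom); `c = ∑ u_i y_i`.

`exists_rep`: `H' = ℝ ⊗ H` is a coalgebra over `ℝ` (Mathlib: base change of Hopf algebras / coalgebras, `TensorProduct.instCoalgebra`...); every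
`φ : H → ℝ` extends to `φ' : H' → ℝ`, and `(φ * ψ)' = φ' * ψ'`, `1' = 1`. Apply `exists_coeff` to `1 ⊗ h` and put `ρ(φ)_ij = φ'(T_ij)`:
`ρ(φ * ψ)_ij = ∑_l φ'(T_il) ψ'(T_lj)`. `φ'(T_ij)` is a finite real combination of values of `φ` (expand `T_ij ∈ ℝ ⊗ H` in pure tensors): `hρ`.
-/

set_option autoImplicit false

open Coalgebra WithConv TensorProduct Matrix

namespace Pool.Agent.Helper73.E8.GS

section aux

variable {k C : Type*} [Field k] [AddCommGroup C] [Module k C]

/-- `a ⊗ b ↦ β(a) b` -/
private noncomputable def sl (β : C →ₗ[k] k) : C ⊗[k] C →ₗ[k] C :=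
  (TensorProduct.lid k C).toLinearMap ∘ₗ TensorProduct.map β LinearMap.id

@[simp] private theorem sl_tmul (β : C →ₗ[k] k) (a b : C) : sl β (a ⊗ₜ[k] b) = β a • b := by
  simp [sl]

/-- `a ⊗ b ↦ β(a) γ(b)` -/
private noncomputable def pr (β γ : C →ₗ[k] k) : C ⊗[k] C →ₗ[k] k :=
  LinearMap.mul' k k ∘ₗ TensorProduct.map β γ

@[simp] private theorem pr_tmul (β γ : C →ₗ[k] k) (a b : C) :
    pr β γ (a ⊗ₜ[k] b) = β a * γ b := by
  simp [pr]

private theorem pr_eq (β γ : C →ₗ[k] k) (x : C ⊗[k] C) : pr β γ x = γ (sl β x) := by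
  induction x using TensorProduct.induction_on with
  | zero => simp
  | tmul a b => simp
  | add x y hx hy => rw [map_add, map_add, map_add, hx, hy]

/-- functionals separate -/
private theorem sep1 {x y : C} (h : ∀ β : C →ₗ[k] k, β x = β y) : x = y := by
  let b := Module.Free.chooseBasis k C
  apply b.ext_elem
  intro i
  exact h (b.coord i)

private theorem sep2 {x y : C ⊗[k] C} (h : ∀ β γ : C →ₗ[k] k, pr β γ x = pr β γ y) : x = y := by
  let b := Module.Free.chooseBasis k C
  have key : ∀ (w : C ⊗[k] C) i j, (b.tensorProduct b).repr w (i, j) = pr (b.coord i) (b.coord j) w := by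
    intro w i j
    induction w using TensorProduct.induction_on with
    | zero => simp
    | tmul a c => simp [mul_comm]
    | add x y hx hy => rw [map_add, map_add, Finsupp.add_apply, hx, hy]
  apply (b.tensorProduct b).ext_elem
  rintro ⟨i, j⟩
  rw [key, key]
  exact h _ _

/-- the slices of a tensor span a finite dimensional space -/
private theorem sl_fin (x : C ⊗[k] C) :
    ∃ Y : Submodule k C, Module.Finite k Y ∧ ∀ β : C →ₗ[k] k, sl β x ∈ Y := by
  induction x using TensorProduct.induction_on with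
  | zero => exact ⟨⊥, inferInstance, fun β => by simp⟩
  | tmul a b =>
    refine ⟨Submodule.span k {b}, inferInstance, fun β => ?_⟩
    rw [sl_tmul]
    exact Submodule.smul_mem _ _ (Submodule.mem_span_singleton_self b)
  | add x y hx hy =>
    obtain ⟨Y, hY, h⟩ := hx
    obtain ⟨Z, hZ, h'⟩ := hy
    refine ⟨Y ⊔ Z, inferInstance, fun β => ?_⟩
    rw [map_add]
    exact Submodule.add_mem_sup (h β) (h' β)

variable [Coalgebra k C]

/-- left slice operators -/
private noncomputable def ls (β : C →ₗ[k] k) (c : C) : C := sl β (comul (R := k) c)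

private theorem ls_counit (c : C) : ls (counit (R := k)) c = c := by
  have h := rTensor_counit_comul (R := k) c
  have e : ∀ x : C ⊗[k] C, sl (counit (R := k)) x =
      TensorProduct.lid k C ((counit (R := k)).rTensor C x) := by
    intro x
    rfl
  rw [ls, e, h]
  simp

private theorem pr_counit (β : C →ₗ[k] k) (c : C) :
    pr β (counit (R := k)) (comul (R := k) c) = β c := by
  have h := lTensor_counit_comul (R := k) c
  have e : ∀ x : C ⊗[k] C, pr β (counit (R := k)) x =
      β (TensorProduct.rid k C ((counit (R := k)).lTensor C x)) := by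
    intro x
    induction x using TensorProduct.induction_on with
    | zero => simp
    | tmul a b => simp [mul_comm]
    | add x y hx hy => simp only [map_add, hx, hy]
  rw [e, h]
  simp

/-- the functional `β * γ` -/
private noncomputable def cv (β γ : C →ₗ[k] k) : C →ₗ[k] k := pr β γ ∘ₗ comul (R := k)

private theorem ls_ls (β γ : C →ₗ[k] k) (c : C) : ls γ (ls β c) = ls (cv β γ) c := by
  let Ψ : C ⊗[k] (C ⊗[k] C) →ₗ[k] C :=
    (TensorProduct.lid k C).toLinearMap ∘ₗ TensorProduct.map β (sl γ)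
  have hΨ : ∀ a w, Ψ (a ⊗ₜ[k] w) = β a • sl γ w := by
    intro a w
    simp [Ψ]
  have e1 : ∀ x : C ⊗[k] C, sl γ (comul (R := k) (sl β x)) =
      Ψ ((comul (R := k)).lTensor C x) := by
    intro x
    induction x using TensorProduct.induction_on with
    | zero => simp
    | tmul a b => rw [LinearMap.lTensor_tmul, hΨ, sl_tmul, map_smul, map_smul]
    | add x y hx hy => simp only [map_add, hx, hy]
  have e3 : ∀ (w : C ⊗[k] C) (b : C), pr β γ w • b = Ψ (TensorProduct.assoc k C C C (w ⊗ₜ[k] b)) := by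
    intro w b
    induction w using TensorProduct.induction_on with
    | zero => simp
    | tmul a a' => rw [TensorProduct.assoc_tmul, hΨ, sl_tmul, pr_tmul, smul_smul]
    | add x y hx hy => simp only [map_add, hx, hy, add_smul, TensorProduct.add_tmul]
  have e2 : ∀ x : C ⊗[k] C, sl (cv β γ) x =
      Ψ (TensorProduct.assoc k C C C ((comul (R := k)).rTensor C x)) := by
    intro x
    induction x using TensorProduct.induction_on with
    | zero => simp
    | tmul a b =>
      rw [LinearMap.rTensor_tmul, sl_tmul, ← e3]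
      rfl
    | add x y hx hy => simp only [map_add, hx, hy]
  rw [ls, ls, ls, e1, e2, Coalgebra.coassoc_apply]

end aux

theorem exists_coeff {k C : Type*} [Field k] [AddCommGroup C] [Module k C] [Coalgebra k C] (c : C) :
    ∃ (m : ℕ) (T : Fin m → Fin m → C) (u v : Fin m → k), c = ∑ i, ∑ j, (u i * v j) • T i j ∧
      (∀ i j, comul (R := k) (T i j) = ∑ l, T i l ⊗ₜ[k] T l j) ∧ ∀ i j, counit (R := k) (T i j) = if i = j then 1 else 0 := by
  -- the space of slices
  let Λ : (C →ₗ[k] k) →ₗ[k] C :=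
    { toFun := fun β => ls β c
      map_add' := fun β γ => by
        have : ∀ x : C ⊗[k] C, sl (β + γ) x = sl β x + sl γ x := by
          intro x
          induction x using TensorProduct.induction_on with
          | zero => simp
          | tmul a b => simp [add_smul]
          | add x y hx hy =>
            simp only [map_add, hx, hy]
            abel
        exact this _
      map_smul' := fun r β => by
        have : ∀ x : C ⊗[k] C, sl (r • β) x = r • sl β x := by
          intro x
          induction x using TensorProduct.induction_on with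
          | zero => simp
          | tmul a b => simp [smul_smul]
          | add x y hx hy => simp only [map_add, hx, hy, smul_add]
        exact this _ }
  set Y := LinearMap.range Λ with hY
  have hfin : Module.Finite k Y := by
    obtain ⟨Z, hZ, h⟩ := sl_fin (k := k) (comul (R := k) c)
    have hle : Y ≤ Z := by
      rintro _ ⟨β, rfl⟩
      exact h β
    exact Submodule.finiteDimensional_of_le hle
  have hcY : c ∈ Y := ⟨counit (R := k), ls_counit c⟩
  have hst : ∀ (γ : C →ₗ[k] k) (y : C), y ∈ Y → ls γ y ∈ Y := by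
    rintro γ _ ⟨β, rfl⟩
    exact ⟨cv β γ, (ls_ls β γ c).symm⟩
  let b := Module.finBasis k Y
  -- extended coordinate functionals
  have hη : ∀ j, ∃ η : C →ₗ[k] k, ∀ y : Y, η y = b.coord j y := by
    intro j
    obtain ⟨g, hg⟩ := LinearMap.exists_extend (b.coord j)
    exact ⟨g, fun y => LinearMap.congr_fun hg y⟩
  choose η hη using hη
  have hexp : ∀ y ∈ Y, y = ∑ j, η j y • (b j : C) := by
    intro y hy
    have e := congrArg (Subtype.val) (b.sum_repr ⟨y, hy⟩)
    rw [Submodule.coe_sum] at e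
    conv_lhs => rw [← show ((⟨y, hy⟩ : Y) : C) = y from rfl, ← e]
    refine Finset.sum_congr rfl fun j _ => ?_
    rw [Submodule.coe_smul]
    congr 1
    exact (hη j ⟨y, hy⟩).symm
  have hηb : ∀ i j, η j (b i : C) = if i = j then 1 else 0 := by
    intro i j
    rw [hη j (b i)]
    simp [Finsupp.single_apply]
  -- right slices
  let rs : (C →ₗ[k] k) → C ⊗[k] C →ₗ[k] C := fun γ =>
    (TensorProduct.rid k C).toLinearMap ∘ₗ TensorProduct.map LinearMap.id γ
  have hrs : ∀ (β γ : C →ₗ[k] k) (x : C ⊗[k] C), β (rs γ x) = pr β γ x := by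
    intro β γ x
    induction x using TensorProduct.induction_on with
    | zero => simp
    | tmul a b => simp [rs, mul_comm]
    | add x y hx hy => simp only [map_add, hx, hy]
  let T : Fin (Module.finrank k Y) → Fin (Module.finrank k Y) → C :=
    fun i j => rs (η j) (comul (R := k) (b i : C))
  have hT : ∀ (β : C →ₗ[k] k) i j, β (T i j) = η j (ls β (b i : C)) := by
    intro β i j
    change β (rs (η j) (comul (R := k) (b i : C))) = _
    rw [hrs, pr_eq]
    rfl
  have hls : ∀ (β : C →ₗ[k] k) i, ls β (b i : C) = ∑ j, β (T i j) • (b j : C) := by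
    intro β i
    conv_lhs => rw [hexp _ (hst β _ (b i).2)]
    refine Finset.sum_congr rfl fun j _ => ?_
    rw [hT]
  have hlslin : ∀ (γ : C →ₗ[k] k) (x : Fin (Module.finrank k Y) → k),
      ls γ (∑ l, x l • (b l : C)) = ∑ l, x l • ls γ (b l : C) := by
    intro γ x
    simp only [ls, map_sum, map_smul]
  refine ⟨_, T, fun i => η i c, fun j => counit (R := k) (b j : C), ?_, ?_, ?_⟩
  · have e1 : ∀ i, (b i : C) = ∑ j, counit (R := k) (b j : C) • T i j := by
      intro i
      apply sep1 (k := k)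
      intro β
      rw [← pr_counit β (b i : C), pr_eq]
      change counit (R := k) (ls β (b i : C)) = _
      rw [hls, map_sum, map_sum]
      refine Finset.sum_congr rfl fun j _ => ?_
      rw [map_smul, map_smul, smul_eq_mul, smul_eq_mul, mul_comm]
    conv_lhs => rw [hexp c hcY]
    refine Finset.sum_congr rfl fun i _ => ?_
    conv_lhs => rw [e1 i]
    rw [Finset.smul_sum]
    refine Finset.sum_congr rfl fun j _ => ?_
    rw [smul_smul]
  · intro i j
    apply sep2
    intro β γ
    have e1 : pr β γ (comul (R := k) (T i j)) = cv β γ (T i j) := rfl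
    rw [e1, hT, ← ls_ls, hls β i, hlslin, map_sum, map_sum]
    refine Finset.sum_congr rfl fun l _ => ?_
    rw [map_smul, pr_tmul, hT γ l j, smul_eq_mul]
  · intro i j
    rw [hT, ls_counit, hηb]

section gen

variable {R H : Type} [CommRing R] [Algebra R ℝ] [CommRing H] [HopfAlgebra R H]

/-- the extension of a functional to `ℝ ⊗ H` -/
private noncomputable def xt (φ : U R H ℝ) : ℝ ⊗[R] H →ₗ[ℝ] ℝ := φ.ofConv.liftBaseChange ℝ

@[simp] private theorem xt_tmul (φ : U R H ℝ) (r : ℝ) (h : H) : xt φ (r ⊗ₜ[R] h) = r * φ h := by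
  rw [xt, LinearMap.liftBaseChange_tmul, smul_eq_mul]

private theorem xt_add (φ ψ : U R H ℝ) (x : ℝ ⊗[R] H) : xt (φ + ψ) x = xt φ x + xt ψ x := by
  induction x using TensorProduct.induction_on with
  | zero => simp
  | tmul r h =>
    rw [xt_tmul, xt_tmul, xt_tmul]
    change r * (φ h + ψ h) = _
    ring
  | add x y hx hy =>
    simp only [map_add, hx, hy]
    ring

private theorem xt_smul (c : ℝ) (φ : U R H ℝ) (x : ℝ ⊗[R] H) : xt (c • φ) x = c * xt φ x := by
  induction x using TensorProduct.induction_on with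
  | zero => simp
  | tmul r h =>
    rw [xt_tmul, xt_tmul]
    change r * (c * φ h) = _
    ring
  | add x y hx hy =>
    simp only [map_add, hx, hy]
    ring

private theorem xt_one (x : ℝ ⊗[R] H) : xt (1 : U R H ℝ) x = counit (R := ℝ) x := by
  induction x using TensorProduct.induction_on with
  | zero => simp
  | tmul r h =>
    rw [xt_tmul, one_apply, TensorProduct.counit_tmul, Algebra.smul_def, mul_comm]
    rfl
  | add x y hx hy => simp only [map_add, hx, hy]

private theorem xt_mul (φ ψ : U R H ℝ) (x : ℝ ⊗[R] H) :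
    xt (φ * ψ) x = pr (xt φ) (xt ψ) (comul (R := ℝ) x) := by
  induction x using TensorProduct.induction_on with
  | zero => simp
  | tmul r h =>
    rw [xt_tmul, LinearMap.convMul_apply, TensorProduct.comul_tmul]
    have e : ∀ w : H ⊗[R] H, r * LinearMap.mul' R ℝ (TensorProduct.map φ.ofConv ψ.ofConv w) =
        pr (xt φ) (xt ψ) (AlgebraTensorModule.tensorTensorTensorComm R ℝ R ℝ ℝ ℝ H H
          (comul (R := ℝ) r ⊗ₜ[R] w)) := by
      intro w
      induction w using TensorProduct.induction_on with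
      | zero => simp
      | tmul a b =>
        simp
        ring
      | add x y hx hy =>
        rw [map_add, map_add, mul_add, hx, hy, TensorProduct.tmul_add, map_add, map_add]
    exact e _
  | add x y hx hy => simp only [map_add, hx, hy]

private theorem xt_fin (x : ℝ ⊗[R] H) :
    ∃ c : H →₀ ℝ, ∀ φ : U R H ℝ, xt φ x = c.sum fun h r => r * φ h := by
  classical
  induction x using TensorProduct.induction_on with
  | zero => exact ⟨0, fun φ => by simp⟩
  | tmul r h => exact ⟨Finsupp.single h r, fun φ => by rw [xt_tmul, Finsupp.sum_single_index]; simp⟩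
  | add x y hx hy =>
    obtain ⟨c, hc⟩ := hx
    obtain ⟨d, hd⟩ := hy
    refine ⟨c + d, fun φ => ?_⟩
    rw [map_add, hc, hd, Finsupp.sum_add_index']
    · intro a
      simp
    · intro a r r'
      ring

private theorem exists_rep_gen (h : H) : ∃ (m : ℕ) (ρ : U R H ℝ →ₐ[ℝ] Matrix (Fin m) (Fin m) ℝ) (u v : Fin m → ℝ),
    (∀ i j, ∃ (s : Finset H) (c : H → ℝ), ∀ φ : U R H ℝ, ρ φ i j = ∑ h ∈ s, c h * φ h) ∧
    ∀ φ : U R H ℝ, φ h = u ⬝ᵥ (ρ φ) *ᵥ v := by
  obtain ⟨m, T, u, v, hc, hT, hε⟩ := exists_coeff (k := ℝ) ((1 : ℝ) ⊗ₜ[R] h)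
  let ρ' : U R H ℝ →ₗ[ℝ] Matrix (Fin m) (Fin m) ℝ :=
    { toFun := fun φ => Matrix.of fun i j => xt φ (T i j)
      map_add' := fun φ ψ => by
        ext i j
        exact xt_add φ ψ (T i j)
      map_smul' := fun c φ => by
        ext i j
        exact xt_smul c φ (T i j) }
  have hρ' : ∀ φ i j, ρ' φ i j = xt φ (T i j) := fun φ i j => rfl
  let ρ : U R H ℝ →ₐ[ℝ] Matrix (Fin m) (Fin m) ℝ := AlgHom.ofLinearMap ρ'
    (by
      ext i j
      rw [hρ', xt_one, hε, Matrix.one_apply])
    (fun φ ψ => by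
      ext i j
      rw [hρ', xt_mul, hT, Matrix.mul_apply, map_sum]
      refine Finset.sum_congr rfl fun l _ => ?_
      rw [pr_tmul, hρ', hρ'])
  have hρ : ∀ φ i j, ρ φ i j = xt φ (T i j) := fun φ i j => rfl
  refine ⟨m, ρ, u, v, ?_, ?_⟩
  · intro i j
    obtain ⟨c, hc⟩ := xt_fin (T i j)
    exact ⟨c.support, c, fun φ => hc φ⟩
  · intro φ
    have e : φ h = xt φ ((1 : ℝ) ⊗ₜ[R] h) := by rw [xt_tmul, one_mul]
    rw [e, hc, map_sum, dotProduct]
    refine Finset.sum_congr rfl fun i _ => ?_
    rw [map_sum, mulVec, dotProduct, Finset.mul_sum]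
    refine Finset.sum_congr rfl fun j _ => ?_
    rw [map_smul, hρ, smul_eq_mul]
    ring

end gen

variable {H : Type} [CommRing H] [HopfAlgebra ℤ H]

/-- An `ℝ`-algebra homomorphism from the convolution algebra to matrices whose entries are given by elements of `ℝ ⊗ H`. -/
structure IsRep {m : ℕ} (ρ : U ℤ H ℝ →ₐ[ℝ] Matrix (Fin m) (Fin m) ℝ) : Prop where
  entries : ∀ i j, ∃ (s : Finset H) (c : H → ℝ), ∀ φ : U ℤ H ℝ, ρ φ i j = ∑ h ∈ s, c h * φ h

theorem exists_rep (h : H) : ∃ (m : ℕ) (ρ : U ℤ H ℝ →ₐ[ℝ] Matrix (Fin m) (Fin m) ℝ) (u v : Fin m → ℝ), IsRep ρ ∧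
    ∀ φ : U ℤ H ℝ, φ h = u ⬝ᵥ (ρ φ) *ᵥ v := by
  obtain ⟨m, ρ, u, v, h1, h2⟩ := exists_rep_gen (R := ℤ) h
  exact ⟨m, ρ, u, v, ⟨h1⟩, h2⟩

end Pool.Agent.Helper73.E8.GS
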