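import Mathlib

/-!
# Block E8-GSTR: bounded one-parameter groups of matrices

If all entries of `exp (t A)`, `t ∈ ℝ`, are bounded then `tr (A²) ≤ 0`, and `tr (A²) = 0` only for `A = 0`.

Proof. Consider `A` as a complex matrix and decompose `ℂ^n` into generalized eigenspaces (`Module.End.iSup_maxGenEigenspace_eq_top`,
`Module.End.independent_maxGenEigenspace`). If `A v = λ v`, `v ≠ 0`, then `exp (t A) v = e^(t λ) v` is bounded for `t ∈ ℝ`, so `Re λ = 0`. If
`(A - λ)² v = 0` then `exp (t A) v = e^(t λ) (v + t (A - λ) v)` is bounded, so `(A - λ) v = 0`. So all generalized eigenspaces are eigenspaces,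
`A` is diagonalisable over `ℂ` with purely imaginary eigenvalues `λ_i = i μ_i`, and `tr (A²) = - ∑ μ_i²`. It vanishes only if all `μ_i = 0`, i.e. `A = 0`.
(Another proof without eigenvectors: the functions `t ↦ exp (t A)` are bounded; choose an inner product on `ℝ^n` invariant under all `exp (t A)`:
the set of the positive definite forms `S` with `exp (t A)ᵀ S exp (t A)` is bounded and bounded below, take the one of a minimal determinant ...; then
`A` is skew for it and `tr (A²) = - |A|²`.)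
-/

set_option autoImplicit false

open Matrix

namespace Pool.Agent.Helper73.E8.GS

section aux

attribute [local instance] Matrix.linftyOpNormedRing Matrix.linftyOpNormedAlgebra

/-- `exp (t N) v = v + t N v` if `N² v = 0`. -/
private lemma exp_mulVec_of_sq {n : ℕ} (N : Matrix (Fin n) (Fin n) ℂ) (v : Fin n → ℂ)
    (h : N *ᵥ (N *ᵥ v) = 0) (t : ℝ) :
    (NormedSpace.exp (t • N)) *ᵥ v = v + (t : ℂ) • (N *ᵥ v) := by
  have h1 : HasSum (fun k : ℕ => ((k.factorial : ℂ)⁻¹) • (t • N) ^ k) (NormedSpace.exp (t • N)) :=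
    NormedSpace.exp_series_hasSum_exp' (𝕂 := ℂ) (t • N)
  let L : Matrix (Fin n) (Fin n) ℂ →ₗ[ℂ] (Fin n → ℂ) :=
    { toFun := fun M => M *ᵥ v
      map_add' := fun a b => Matrix.add_mulVec a b v
      map_smul' := fun c a => Matrix.smul_mulVec c a v }
  have hL : Continuous L := L.continuous_of_finiteDimensional
  have h2 := h1.map L.toAddMonoidHom hL
  have h3 : ∀ k : ℕ, 2 ≤ k → ((t • N) ^ k) *ᵥ v = 0 := by
    intro k hk
    obtain ⟨j, rfl⟩ := Nat.exists_eq_add_of_le' hk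
    rw [pow_add, pow_two, ← Matrix.mulVec_mulVec, ← Matrix.mulVec_mulVec]
    have : (t • N) *ᵥ ((t • N) *ᵥ v) = 0 := by
      simp only [Matrix.smul_mulVec, Matrix.mulVec_smul, h, smul_zero]
    rw [this, Matrix.mulVec_zero]
  have h4 : HasSum ((L.toAddMonoidHom : Matrix (Fin n) (Fin n) ℂ → (Fin n → ℂ)) ∘ fun k : ℕ =>
      ((k.factorial : ℂ)⁻¹) • (t • N) ^ k)
      (∑ k ∈ Finset.range 2, ((L.toAddMonoidHom : Matrix (Fin n) (Fin n) ℂ → (Fin n → ℂ)) ∘
        fun k : ℕ => ((k.factorial : ℂ)⁻¹) • (t • N) ^ k) k) := by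
    apply hasSum_sum_of_ne_finset_zero
    intro k hk
    have hk' : 2 ≤ k := by
      rw [Finset.mem_range, not_lt] at hk
      exact hk
    change (((k.factorial : ℂ)⁻¹) • (t • N) ^ k) *ᵥ v = 0
    rw [Matrix.smul_mulVec, h3 k hk', smul_zero]
  have h5 := h2.unique h4
  change (NormedSpace.exp (t • N)) *ᵥ v = _ at h5
  rw [h5]
  simp only [Finset.sum_range_succ, Finset.sum_range_zero, Function.comp]
  change 0 + (((Nat.factorial 0 : ℕ) : ℂ)⁻¹ • (t • N) ^ 0) *ᵥ v + (((Nat.factorial 1 : ℕ) : ℂ)⁻¹ • (t • N) ^ 1) *ᵥ v = _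
  simp only [Nat.factorial, Nat.cast_one, inv_one, one_smul, pow_zero, Matrix.one_mulVec, zero_add, pow_one,
    Nat.succ_eq_add_one, mul_one, Nat.cast_one]
  rw [Matrix.smul_mulVec]
  rfl

/-- `exp (t B) v = e^{t l} (v + t (B - l) v)` if `(B - l)² v = 0`. -/
private lemma exp_mulVec_gen {n : ℕ} (B : Matrix (Fin n) (Fin n) ℂ) (l : ℂ) (v : Fin n → ℂ)
    (h : (B - l • 1) *ᵥ ((B - l • 1) *ᵥ v) = 0) (t : ℝ) :
    (NormedSpace.exp (t • B)) *ᵥ v = Complex.exp (t * l) • (v + (t : ℂ) • ((B - l • 1) *ᵥ v)) := by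
  have e1 : t • B = (t * l : ℂ) • (1 : Matrix (Fin n) (Fin n) ℂ) + t • (B - l • 1) := by
    rw [smul_sub]
    have : t • l • (1 : Matrix (Fin n) (Fin n) ℂ) = (t * l : ℂ) • 1 := by
      rw [← smul_assoc]; simp
    rw [this]; abel
  have hc : Commute ((t * l : ℂ) • (1 : Matrix (Fin n) (Fin n) ℂ)) (t • (B - l • 1)) :=
    (Commute.one_left _).smul_left _
  rw [e1, Matrix.exp_add_of_commute _ _ hc, ← Matrix.mulVec_mulVec, exp_mulVec_of_sq _ _ h]
  have e2 : NormedSpace.exp ((t * l : ℂ) • (1 : Matrix (Fin n) (Fin n) ℂ)) = Complex.exp (t * l) • 1 := by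
    have h1 := NormedSpace.map_exp (algebraMap ℂ (Matrix (Fin n) (Fin n) ℂ)) (continuous_algebraMap _ _) (t * l : ℂ)
    rw [Algebra.algebraMap_eq_smul_one, Algebra.algebraMap_eq_smul_one, ← Complex.exp_eq_exp_ℂ] at h1
    exact h1.symm
  rw [e2, Matrix.smul_mulVec, Matrix.one_mulVec]

private lemma exp_map {n : ℕ} (A : Matrix (Fin n) (Fin n) ℝ) (t : ℝ) :
    NormedSpace.exp (t • A.map (algebraMap ℝ ℂ)) = (NormedSpace.exp (t • A)).map (algebraMap ℝ ℂ) := by
  have hc : Continuous (RingHom.mapMatrix (m := Fin n) (algebraMap ℝ ℂ)) := by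
    change Continuous fun M : Matrix (Fin n) (Fin n) ℝ => M.map (algebraMap ℝ ℂ)
    exact continuous_id.matrix_map (continuous_algebraMap ℝ ℂ)
  have h1 := NormedSpace.map_exp (RingHom.mapMatrix (m := Fin n) (algebraMap ℝ ℂ)) hc (t • A)
  rw [RingHom.mapMatrix_apply] at h1
  refine Eq.trans ?_ h1.symm
  congr 1
  rw [RingHom.mapMatrix_apply]
  ext i j
  simp [Matrix.map_apply, Matrix.smul_apply]

end aux

/-- the orbit of a complex vector is bounded -/
private lemma orbit_bdd {n : ℕ} (A : Matrix (Fin n) (Fin n) ℝ) (C : ℝ)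
    (hb : ∀ (t : ℝ) (i j : Fin n), |(NormedSpace.exp (t • A)) i j| ≤ C) (v : Fin n → ℂ) (i : Fin n) (t : ℝ) :
    ‖(NormedSpace.exp (t • A.map (algebraMap ℝ ℂ)) *ᵥ v) i‖ ≤ C * ∑ j, ‖v j‖ := by
  rw [exp_map, Matrix.mulVec, dotProduct, Finset.mul_sum]
  refine (norm_sum_le _ _).trans (Finset.sum_le_sum fun j _ => ?_)
  rw [norm_mul]
  refine mul_le_mul_of_nonneg_right ?_ (norm_nonneg _)
  rw [Matrix.map_apply]
  simpa using hb t i j

/-- eigenvalues are purely imaginary -/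
private lemma re_zero {n : ℕ} (A : Matrix (Fin n) (Fin n) ℝ) (C : ℝ)
    (hb : ∀ (t : ℝ) (i j : Fin n), |(NormedSpace.exp (t • A)) i j| ≤ C) (l : ℂ) (v : Fin n → ℂ) (hv : v ≠ 0)
    (h : (A.map (algebraMap ℝ ℂ) - l • 1) *ᵥ v = 0) : l.re = 0 := by
  obtain ⟨i, hi⟩ : ∃ i, v i ≠ 0 := by
    by_contra hcon
    push Not at hcon
    exact hv (funext hcon)
  have hi' : 0 < ‖v i‖ := norm_pos_iff.mpr hi
  set K := C * ∑ j, ‖v j‖ with hK
  have key : ∀ t : ℝ, Real.exp (t * l.re) * ‖v i‖ ≤ K := by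
    intro t
    have h1 := orbit_bdd A C hb v i t
    rw [exp_mulVec_gen _ l v (by rw [h, Matrix.mulVec_zero]) t, h, smul_zero, add_zero, Pi.smul_apply,
      norm_smul, Complex.norm_exp] at h1
    have : ((t : ℂ) * l).re = t * l.re := by simp
    rwa [this] at h1
  by_contra hne
  have h2 := key ((K / ‖v i‖) / l.re)
  rw [div_mul_cancel₀ _ hne] at h2
  have h3 : K / ‖v i‖ + 1 ≤ Real.exp (K / ‖v i‖) := Real.add_one_le_exp _
  have h4 : (K / ‖v i‖ + 1) * ‖v i‖ ≤ K := (mul_le_mul_of_nonneg_right h3 hi'.le).trans h2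
  rw [add_mul, div_mul_cancel₀ _ hi'.ne', one_mul] at h4
  linarith

/-- no Jordan blocks -/
private lemma ker_sq {n : ℕ} (A : Matrix (Fin n) (Fin n) ℝ) (C : ℝ)
    (hb : ∀ (t : ℝ) (i j : Fin n), |(NormedSpace.exp (t • A)) i j| ≤ C) (l : ℂ) (v : Fin n → ℂ)
    (h : (A.map (algebraMap ℝ ℂ) - l • 1) *ᵥ ((A.map (algebraMap ℝ ℂ) - l • 1) *ᵥ v) = 0) :
    (A.map (algebraMap ℝ ℂ) - l • 1) *ᵥ v = 0 := by
  by_contra hcon
  have hre : l.re = 0 := re_zero A C hb l _ hcon h
  set w := (A.map (algebraMap ℝ ℂ) - l • 1) *ᵥ v with hw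
  obtain ⟨i, hi⟩ : ∃ i, w i ≠ 0 := by
    by_contra hcon'
    push Not at hcon'
    exact hcon (funext hcon')
  have hi' : 0 < ‖w i‖ := norm_pos_iff.mpr hi
  set K := C * ∑ j, ‖v j‖ with hK
  have key : ∀ t : ℝ, ‖v i + (t : ℂ) * w i‖ ≤ K := by
    intro t
    have h1 := orbit_bdd A C hb v i t
    rw [exp_mulVec_gen _ l v h t, Pi.smul_apply, norm_smul, Complex.norm_exp] at h1
    have : ((t : ℂ) * l).re = 0 := by simp [hre]
    rw [this, Real.exp_zero, one_mul] at h1
    exact h1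
  have h2 := key ((K + ‖v i‖ + 1) / ‖w i‖)
  have h0 : ‖v i‖ ≤ K := by simpa using key 0
  have h3 : ‖(((K + ‖v i‖ + 1) / ‖w i‖ : ℝ) : ℂ) * w i‖ ≤ K + ‖v i‖ := by
    have := norm_sub_le (v i + (((K + ‖v i‖ + 1) / ‖w i‖ : ℝ) : ℂ) * w i) (v i)
    rw [add_sub_cancel_left] at this
    linarith
  have hnn : 0 ≤ (K + ‖v i‖ + 1) / ‖w i‖ := by
    have := norm_nonneg (v i)
    exact div_nonneg (by linarith) hi'.le
  rw [norm_mul, Complex.norm_real, Real.norm_of_nonneg hnn, div_mul_cancel₀ _ hi'.ne'] at h3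
  linarith

theorem trace_sq_of_bounded {n : ℕ} (A : Matrix (Fin n) (Fin n) ℝ) (C : ℝ)
    (hb : ∀ (t : ℝ) (i j : Fin n), |(NormedSpace.exp (t • A)) i j| ≤ C) :
    (A * A).trace ≤ 0 ∧ ((A * A).trace = 0 → A = 0) := by
  classical
  set B := A.map (algebraMap ℝ ℂ) with hB
  let f : Module.End ℂ (Fin n → ℂ) := Matrix.toLin' B
  have hf : ∀ (l : ℂ) (v : Fin n → ℂ), (f - algebraMap ℂ _ l) v = (B - l • 1) *ᵥ v := by
    intro l v
    rw [Matrix.sub_mulVec, Matrix.smul_mulVec, Matrix.one_mulVec]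
    rfl
  have hker : ∀ (l : ℂ) (k : ℕ) (v : Fin n → ℂ), ((f - algebraMap ℂ _ l) ^ (k + 1)) v = 0 →
      (f - algebraMap ℂ _ l) v = 0 := by
    intro l k
    induction k with
    | zero => intro v hv; simpa using hv
    | succ k ih =>
      intro v hv
      rw [pow_succ, Module.End.mul_apply] at hv
      have h1 := ih _ hv
      rw [hf, hf] at h1
      rw [hf]
      exact ker_sq A C hb l v h1
  have htop : ⨆ μ : ℂ, f.eigenspace μ = ⊤ := by
    rw [← Module.End.iSup_maxGenEigenspace_eq_top f]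
    apply le_antisymm
    · exact iSup_mono fun μ => Module.End.eigenspace_le_maxGenEigenspace
    · refine iSup_mono fun μ => fun w hw => ?_
      rw [Module.End.mem_maxGenEigenspace] at hw
      obtain ⟨k, hk⟩ := hw
      have h1 : (f - algebraMap ℂ _ μ) w = 0 := by
        refine hker μ k w ?_
        have h2 : (f - algebraMap ℂ _ μ) = f - μ • 1 := rfl
        rw [h2, pow_succ', Module.End.mul_apply, hk, map_zero]
      rw [Module.End.mem_eigenspace_iff]
      have h3 : (f - algebraMap ℂ _ μ) w = f w - μ • w := rfl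
      rw [h3, sub_eq_zero] at h1
      exact h1
  let eigenDecomp := DirectSum.isInternal_submodule_of_iSupIndep_of_iSup_eq_top
    f.eigenspaces_iSupIndep htop
  let I := (ν : ℂ) × Fin (Module.finrank ℂ (f.eigenspace ν))
  let v : Module.Basis I ℂ (Fin n → ℂ) := eigenDecomp.collectedBasis fun μ ↦ Module.finBasis ℂ (f.eigenspace μ)
  have : Fintype I := FiniteDimensional.fintypeBasisIndex v
  let μ : I → ℂ := Sigma.fst
  have hsv (i : I) : f (v i) = μ i • v i :=
    Module.End.mem_eigenspace_iff.mp (eigenDecomp.collectedBasis_mem _ i)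
  have hre : ∀ i, (μ i).re = 0 := by
    intro i
    refine re_zero A C hb (μ i) (v i) (v.ne_zero i) ?_
    rw [← hB, ← hf, LinearMap.sub_apply, hsv]
    simp
  have htr : (((A * A).trace : ℝ) : ℂ) = ∑ i, (μ i) ^ 2 := by
    have h1 : (((A * A).trace : ℝ) : ℂ) = LinearMap.trace ℂ _ (f * f) := by
      have h2 : f * f = Matrix.toLin' (B * B) := (Matrix.toLin'_mul B B).symm
      rw [h2, Matrix.trace_toLin'_eq, hB, ← Matrix.map_mul]
      simp [Matrix.trace, Matrix.diag]
    rw [h1, LinearMap.trace_eq_matrix_trace ℂ v, Matrix.trace]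
    refine Finset.sum_congr rfl fun i _ => ?_
    rw [Matrix.diag_apply, LinearMap.toMatrix_apply, Module.End.mul_apply, hsv, map_smul, hsv]
    simp [pow_two]
  have htr' : (A * A).trace = - ∑ i, (μ i).im ^ 2 := by
    have := congrArg Complex.re htr
    rw [Complex.ofReal_re, Complex.re_sum] at this
    rw [this, ← Finset.sum_neg_distrib]
    refine Finset.sum_congr rfl fun i _ => ?_
    rw [pow_two, Complex.mul_re, hre]
    ring
  refine ⟨?_, fun h0 => ?_⟩
  · rw [htr', neg_nonpos]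
    exact Finset.sum_nonneg fun i _ => sq_nonneg _
  · rw [htr', neg_eq_zero, Finset.sum_eq_zero_iff_of_nonneg (fun i _ => sq_nonneg _)] at h0
    have hμ : ∀ i, μ i = 0 := fun i => Complex.ext (hre i) (by simpa using h0 i (Finset.mem_univ _))
    have hf0 : f = 0 := v.ext fun i => by rw [hsv, hμ]; simp
    have hB0 : B = 0 := by
      have : Matrix.toLin' B = Matrix.toLin' 0 := by rw [map_zero]; exact hf0
      exact Matrix.toLin'.injective this
    ext i j
    have := congrFun (congrFun hB0 i) j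
    rw [hB, Matrix.map_apply] at this
    simpa using this

end Pool.Agent.Helper73.E8.GS
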