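import Pool.Agent.Helper73.E8.GS.Exp
import Pool.Agent.Helper73.E8.GS.Tr

/-!
# Block E8-GSNEG: compactness and the Killing form

Let `V = LieG ℤ H ℝ` be finite dimensional and `G(ℝ)` compact.

Proof. The evaluations `E ↦ E h`, `h ∈ H`, separate the points of `V`, so finitely many `h_1, ..., h_r` do. Choose representations `ρ_i` for them
(`exists_rep`): `E h_i` is determined by `ρ_i E`. Let `D ∈ V`. For all `t` there is `x_t ∈ G(ℝ)` with `ρ_i (lin x_t) = exp (t ρ_i D)` for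
all `i` (`exists_exp`). As `G(ℝ)` is compact in the topology of pointwise convergence, `{x h : x ∈ G(ℝ)}` is bounded for every `h` (continuous
image of a compact set), so by `IsRep` the entries of `ρ_i (lin x)` are bounded on `G(ℝ)`, and the entries of `exp (± t ρ_i D)` are bounded.
For `E ∈ V`: `ρ_i (exp (t ad D) E) = exp (t ρ_i D) (ρ_i E) exp (- t ρ_i D)`: `ρ_i ⁅D, E⁆ = ρ_i D ρ_i E - ρ_i E ρ_i D`, so `ρ_i ∘ (ad D)^n = (L - R)^n ∘ ρ_i` with the
commuting operators `L`, `R` of left and right multiplication by `ρ_i D` (compare the power series, or differentiate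
`exp (- t ρ_i D) ρ_i (exp (t ad D) E) exp (t ρ_i D)`). So all `ρ_i (exp (t ad D) E)` are bounded, hence (the `ρ_i` together are injective on the finite
dimensional space `V`) `exp (t ad D) E` is bounded, i.e. all entries of `exp (t A)` are bounded, `A` the matrix of `ad D` in a basis of `V`.
`killingForm D D = tr (A * A)`; `trace_sq_of_bounded`.
-/

set_option autoImplicit false

open Coalgebra WithConv TensorProduct Matrix

namespace Pool.Agent.Helper73.E8.GS


section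
open scoped Norms.Operator

set_option backward.isDefEq.respectTransparency false in
private theorem conj_exp1 {m n : ℕ} (R : Matrix (Fin m) (Fin m) ℝ) (A : Matrix (Fin n) (Fin n) ℝ)
    (Q : (Fin n → ℝ) →ₗ[ℝ] Matrix (Fin m) (Fin m) ℝ) (hQ : ∀ c, Q (A *ᵥ c) = R * Q c - Q c * R)
    (c : Fin n → ℝ) (t : ℝ) :
    Q (NormedSpace.exp (t • A) *ᵥ c) =
      NormedSpace.exp (t • R) * Q c * NormedSpace.exp ((-t) • R) := by
  let Lf : Matrix (Fin n) (Fin n) ℝ →ₗ[ℝ] Matrix (Fin m) (Fin m) ℝ :=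
    { toFun := fun X => Q (X *ᵥ c)
      map_add' := fun X Y => by rw [Matrix.add_mulVec, map_add]
      map_smul' := fun r X => by rw [Matrix.smul_mulVec, map_smul, RingHom.id_apply] }
  let f : ℝ → Matrix (Fin m) (Fin m) ℝ := fun u =>
    NormedSpace.exp ((-u) • R) * Lf (NormedSpace.exp (u • A)) * NormedSpace.exp (u • R)
  have h1 : ∀ u : ℝ, HasDerivAt (fun u : ℝ => Lf (NormedSpace.exp (u • A)))
      (R * Lf (NormedSpace.exp (u • A)) - Lf (NormedSpace.exp (u • A)) * R) u := by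
    intro u
    have h2 := (LinearMap.toContinuousLinearMap Lf).hasFDerivAt.comp_hasDerivAt u
      (hasDerivAt_exp_smul_const' A u)
    have h3 : (LinearMap.toContinuousLinearMap Lf) (A * NormedSpace.exp (u • A)) =
        R * Lf (NormedSpace.exp (u • A)) - Lf (NormedSpace.exp (u • A)) * R := by
      change Q ((A * NormedSpace.exp (u • A)) *ᵥ c) = R * Q (NormedSpace.exp (u • A) *ᵥ c) -
        Q (NormedSpace.exp (u • A) *ᵥ c) * R
      rw [← Matrix.mulVec_mulVec, hQ]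
    rw [h3] at h2
    exact h2
  have h4 : ∀ u : ℝ, HasDerivAt (fun u : ℝ => NormedSpace.exp ((-u) • R))
      (-(NormedSpace.exp ((-u) • R) * R)) u := by
    intro u
    have h5 := (hasDerivAt_exp_smul_const R (-u)).scomp u (hasDerivAt_neg u)
    rw [neg_smul, one_smul] at h5
    exact h5
  have h6 : ∀ u : ℝ, HasDerivAt f 0 u := by
    intro u
    have h7 := ((h4 u).mul (h1 u)).mul (hasDerivAt_exp_smul_const' R u)
    have h8 : (-(NormedSpace.exp ((-u) • R) * R) * Lf (NormedSpace.exp (u • A)) +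
        NormedSpace.exp ((-u) • R) * (R * Lf (NormedSpace.exp (u • A)) -
          Lf (NormedSpace.exp (u • A)) * R)) * NormedSpace.exp (u • R) +
        NormedSpace.exp ((-u) • R) * Lf (NormedSpace.exp (u • A)) *
          (R * NormedSpace.exp (u • R)) = 0 := by
      noncomm_ring
    have h7' : HasDerivAt f ((-(NormedSpace.exp ((-u) • R) * R) * Lf (NormedSpace.exp (u • A)) +
        NormedSpace.exp ((-u) • R) * (R * Lf (NormedSpace.exp (u • A)) -
          Lf (NormedSpace.exp (u • A)) * R)) * NormedSpace.exp (u • R) +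
        NormedSpace.exp ((-u) • R) * Lf (NormedSpace.exp (u • A)) *
          (R * NormedSpace.exp (u • R))) u := h7
    rw [h8] at h7'
    exact h7'
  have h9 : f t = f 0 := is_const_of_deriv_eq_zero (fun u => (h6 u).differentiableAt)
    (fun u => (h6 u).deriv) t 0
  have h10 : f 0 = Q c := by
    change NormedSpace.exp ((-0 : ℝ) • R) * Q (NormedSpace.exp ((0 : ℝ) • A) *ᵥ c) *
      NormedSpace.exp ((0 : ℝ) • R) = Q c
    rw [neg_zero, zero_smul, zero_smul, NormedSpace.exp_zero, NormedSpace.exp_zero, one_mul,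
      mul_one, Matrix.one_mulVec]
  have h11 : NormedSpace.exp (t • R) * NormedSpace.exp ((-t) • R) = 1 := by
    rw [← Matrix.exp_add_of_commute _ _ (((Commute.refl R).smul_left t).smul_right (-t)),
      ← add_smul, add_neg_cancel, zero_smul, NormedSpace.exp_zero]
  have h12 : f t = NormedSpace.exp ((-t) • R) * Q (NormedSpace.exp (t • A) *ᵥ c) *
    NormedSpace.exp (t • R) := rfl
  rw [← h10, ← h9, h12]
  calc Q (NormedSpace.exp (t • A) *ᵥ c)
      = (NormedSpace.exp (t • R) * NormedSpace.exp ((-t) • R)) * Q (NormedSpace.exp (t • A) *ᵥ c) *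
        (NormedSpace.exp (t • R) * NormedSpace.exp ((-t) • R)) := by
        rw [h11, one_mul, mul_one]
    _ = _ := by noncomm_ring

end


variable {H : Type} [CommRing H] [HopfAlgebra ℤ H]

private theorem rep_bound1 (hc : IsCompact (Set.range fun g : H →ₐ[ℤ] ℝ => (g : H → ℝ))) {m : ℕ}
    {ρ : U ℤ H ℝ →ₐ[ℝ] Matrix (Fin m) (Fin m) ℝ} (hρ : IsRep ρ) :
    ∃ B : Fin m → Fin m → ℝ, ∀ (x : Pt ℤ H ℝ) (i j : Fin m), |ρ (lin x) i j| ≤ B i j := by
  have h1 : ∀ h : H, ∃ C : ℝ, ∀ x : Pt ℤ H ℝ, |x h| ≤ C := by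
    intro h
    obtain ⟨C, hC⟩ := hc.exists_bound_of_continuousOn (f := fun φ : H → ℝ => φ h)
      (continuous_apply h).continuousOn
    exact ⟨C, fun x => hC _ ⟨x.ofConv, rfl⟩⟩
  choose C hC using h1
  have h2 : ∀ i j : Fin m, ∃ B : ℝ, ∀ x : Pt ℤ H ℝ, |ρ (lin x) i j| ≤ B := by
    intro i j
    obtain ⟨s, c, hs⟩ := hρ.entries i j
    refine ⟨∑ h ∈ s, |c h| * C h, fun x => ?_⟩
    rw [hs]
    refine (Finset.abs_sum_le_sum_abs _ _).trans (Finset.sum_le_sum fun h _ => ?_)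
    rw [abs_mul, lin_apply]
    exact mul_le_mul_of_nonneg_left (hC h x) (abs_nonneg _)
  choose B hB using h2
  exact ⟨B, fun x i j => hB i j x⟩

private theorem conj_bound1 {m : ℕ} (B : Fin m → Fin m → ℝ) (Y : Matrix (Fin m) (Fin m) ℝ)
    (u v : Fin m → ℝ) : ∃ C : ℝ, ∀ X Z : Matrix (Fin m) (Fin m) ℝ, (∀ i j, |X i j| ≤ B i j) →
      (∀ i j, |Z i j| ≤ B i j) → |u ⬝ᵥ (X * Y * Z) *ᵥ v| ≤ C := by
  have h1 : IsCompact (Set.pi Set.univ (fun i : Fin m => Set.pi Set.univ
      (fun j : Fin m => Set.Icc (-(B i j)) (B i j)))) :=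
    isCompact_univ_pi fun i => isCompact_univ_pi fun j => isCompact_Icc
  have h2 : Continuous (fun p : Matrix (Fin m) (Fin m) ℝ × Matrix (Fin m) (Fin m) ℝ =>
      u ⬝ᵥ (p.1 * Y * p.2) *ᵥ v) := by
    fun_prop
  obtain ⟨C, hC⟩ := (h1.prod h1).exists_bound_of_continuousOn (f := fun p : Matrix (Fin m) (Fin m) ℝ ×
    Matrix (Fin m) (Fin m) ℝ => u ⬝ᵥ (p.1 * Y * p.2) *ᵥ v) h2.continuousOn
  refine ⟨C, fun X Z hX hZ => ?_⟩
  have h3 := hC (X, Z) ⟨fun i _ j _ => abs_le.mp (hX i j), fun i _ j _ => abs_le.mp (hZ i j)⟩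
  exact h3

private theorem span_ev1 (hfin : Module.Finite ℝ (LieG ℤ H ℝ)) (P : Submodule ℝ (Module.Dual ℝ (LieG ℤ H ℝ)))
    (hP : ∀ h : H, ∃ f ∈ P, ∀ E : LieG ℤ H ℝ, f E = E.1 h) : P = ⊤ := by
  have h1 : P.dualCoannihilator = ⊥ := by
    rw [eq_bot_iff]
    intro E hE
    rw [Submodule.mem_dualCoannihilator] at hE
    rw [Submodule.mem_bot]
    refine Subtype.ext ?_
    apply WithConv.ofConv_injective
    apply DFunLike.coe_injective
    funext h
    obtain ⟨f, hf, hfE⟩ := hP h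
    have h2 := hE f hf
    rw [hfE] at h2
    exact h2
  have h3 := Subspace.dualCoannihilator_dualAnnihilator_eq (W := P)
  rw [← h3, h1, Submodule.dualAnnihilator_bot]

theorem killing_nonpos (hfin : Module.Finite ℝ (LieG ℤ H ℝ))
    (hc : IsCompact (Set.range fun g : H →ₐ[ℤ] ℝ => (g : H → ℝ))) (D : LieG ℤ H ℝ) :
    killingForm ℝ (LieG ℤ H ℝ) D D ≤ 0 ∧ (killingForm ℝ (LieG ℤ H ℝ) D D = 0 → ∀ E : LieG ℤ H ℝ, ⁅D, E⁆ = 0) := by
  classical
  obtain ⟨n, b⟩ : ∃ n : ℕ, Nonempty (Module.Basis (Fin n) ℝ (LieG ℤ H ℝ)) :=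
    ⟨_, ⟨Module.finBasis ℝ (LieG ℤ H ℝ)⟩⟩
  obtain ⟨b⟩ := b
  set A : Matrix (Fin n) (Fin n) ℝ := LinearMap.toMatrix b b (LieAlgebra.ad ℝ (LieG ℤ H ℝ) D) with hA
  let Φ : ℝ → LieG ℤ H ℝ →ₗ[ℝ] LieG ℤ H ℝ := fun t =>
    b.equivFun.symm.toLinearMap ∘ₗ (Matrix.mulVecLin (NormedSpace.exp (t • A))) ∘ₗ b.equivFun.toLinearMap
  have hAc : ∀ c : Fin n → ℝ, b.equivFun.symm (A *ᵥ c) = ⁅D, b.equivFun.symm c⁆ := by
    intro c
    have h1 := LinearMap.toMatrix_mulVec_repr b b (LieAlgebra.ad ℝ (LieG ℤ H ℝ) D) (b.equivFun.symm c)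
    have h2 : (b.repr (b.equivFun.symm c) : Fin n → ℝ) = c := b.equivFun.apply_symm_apply c
    rw [h2] at h1
    rw [hA, h1]
    exact b.equivFun.symm_apply_apply _
  -- boundedness of evaluations
  have hev : ∀ (h : H) (E : LieG ℤ H ℝ), ∃ C : ℝ, ∀ t : ℝ, |(Φ t E).1 h| ≤ C := by
    intro h E
    obtain ⟨m, ρ, u, v, hρ, huv⟩ := exists_rep h
    obtain ⟨B, hB⟩ := rep_bound1 hc hρ
    obtain ⟨C, hC⟩ := conj_bound1 B (ρ E.1) u v
    refine ⟨C, fun t => ?_⟩
    let Q : (Fin n → ℝ) →ₗ[ℝ] Matrix (Fin m) (Fin m) ℝ :=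
      ρ.toLinearMap ∘ₗ (LieG ℤ H ℝ).subtype ∘ₗ b.equivFun.symm.toLinearMap
    have hQ : ∀ c, Q (A *ᵥ c) = ρ D.1 * Q c - Q c * ρ D.1 := by
      intro c
      change ρ ((b.equivFun.symm (A *ᵥ c)).1) = ρ D.1 * ρ ((b.equivFun.symm c).1) -
        ρ ((b.equivFun.symm c).1) * ρ D.1
      rw [hAc, bracket_val, map_sub, map_mul, map_mul]
    have h1 := conj_exp1 (ρ D.1) A Q hQ (b.equivFun E) t
    have h2 : ρ (Φ t E).1 = NormedSpace.exp (t • ρ D.1) * ρ E.1 * NormedSpace.exp ((-t) • ρ D.1) := by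
      have h3 : Q (b.equivFun E) = ρ E.1 := by
        change ρ ((b.equivFun.symm (b.equivFun E)).1) = ρ E.1
        rw [b.equivFun.symm_apply_apply]
      rw [h3] at h1
      exact h1
    rw [huv, h2]
    obtain ⟨x, hx⟩ := exists_exp D t
    obtain ⟨y, hy⟩ := exists_exp D (-t)
    refine hC _ _ (fun i j => ?_) (fun i j => ?_)
    · rw [← hx m ρ hρ]
      exact hB x i j
    · rw [← hy m ρ hρ]
      exact hB y i j
  let P : Submodule ℝ (Module.Dual ℝ (LieG ℤ H ℝ)) :=
    { carrier := {f | ∀ E : LieG ℤ H ℝ, ∃ C : ℝ, ∀ t : ℝ, |f (Φ t E)| ≤ C}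
      add_mem' := by
        intro f g hf hg E
        obtain ⟨C1, h1⟩ := hf E
        obtain ⟨C2, h2⟩ := hg E
        refine ⟨C1 + C2, fun t => ?_⟩
        rw [LinearMap.add_apply]
        exact (abs_add_le _ _).trans (add_le_add (h1 t) (h2 t))
      zero_mem' := by
        intro E
        refine ⟨0, fun t => ?_⟩
        rw [LinearMap.zero_apply, abs_zero]
      smul_mem' := by
        intro r f hf E
        obtain ⟨C1, h1⟩ := hf E
        refine ⟨|r| * C1, fun t => ?_⟩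
        rw [LinearMap.smul_apply, smul_eq_mul, abs_mul]
        exact mul_le_mul_of_nonneg_left (h1 t) (abs_nonneg _) }
  have hP : P = ⊤ := by
    refine span_ev1 hfin P fun h => ?_
    let ev : Module.Dual ℝ (LieG ℤ H ℝ) :=
      { toFun := fun E => E.1 h
        map_add' := fun E F => rfl
        map_smul' := fun r E => rfl }
    exact ⟨ev, fun E => hev h E, fun E => rfl⟩
  have hent : ∀ i j : Fin n, ∃ C : ℝ, ∀ t : ℝ, |(NormedSpace.exp (t • A)) i j| ≤ C := by
    intro i j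
    have h1 : b.coord i ∈ P := by rw [hP]; exact Submodule.mem_top
    obtain ⟨C, hC⟩ := h1 (b j)
    refine ⟨C, fun t => ?_⟩
    have h2 : b.coord i (Φ t (b j)) = (NormedSpace.exp (t • A)) i j := by
      have h3 : b.coord i (Φ t (b j)) = (NormedSpace.exp (t • A) *ᵥ (b.equivFun (b j))) i := by
        have h4 : b.equivFun (b.equivFun.symm (NormedSpace.exp (t • A) *ᵥ (b.equivFun (b j)))) =
          NormedSpace.exp (t • A) *ᵥ (b.equivFun (b j)) := b.equivFun.apply_symm_apply _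
        exact congrFun h4 i
      have h5 : b.equivFun (b j) = Pi.single j 1 := by
        ext l
        rw [Module.Basis.equivFun_self, Pi.single_apply]
        exact if_congr eq_comm rfl rfl
      rw [h3, h5, Matrix.mulVec_single_one]
      rfl
    rw [← h2]
    exact hC t
  choose C hC using hent
  have hC0 : ∀ i j, 0 ≤ C i j := fun i j => (abs_nonneg _).trans (hC i j 0)
  have htr := trace_sq_of_bounded A (∑ i, ∑ j, C i j) fun t i j =>
    (hC i j t).trans ((Finset.single_le_sum (f := fun j => C i j) (fun j _ => hC0 i j) (Finset.mem_univ j)).trans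
      (Finset.single_le_sum (f := fun i => ∑ j, C i j) (fun i _ => Finset.sum_nonneg fun j _ => hC0 i j)
        (Finset.mem_univ i)))
  have hk : killingForm ℝ (LieG ℤ H ℝ) D D = (A * A).trace := by
    rw [killingForm_apply_apply, LinearMap.trace_eq_matrix_trace ℝ b, LinearMap.toMatrix_comp b b b]
  rw [hk]
  refine ⟨htr.1, fun h0 E => ?_⟩
  have hA0 := htr.2 h0
  have h1 := hAc (b.equivFun E)
  rw [hA0, Matrix.zero_mulVec, map_zero, b.equivFun.symm_apply_apply] at h1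
  exact h1.symm

end Pool.Agent.Helper73.E8.GS
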