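import Pool.Agent.Helper73.E8.GS.Fin
import Pool.Agent.Helper73.E8.GS.Neg
import Pool.Agent.Helper73.E8.Xc.Last

/-!
# From group schemes to Lie rings
-/

set_option autoImplicit false

open Coalgebra WithConv TensorProduct

namespace Pool.Agent.Helper73.E8.GS

open Pool.Agent.Helper73.E8

/-- The Killing form of `ℝ ⊗ L` is non-degenerate. -/
theorem baseChange_nondeg {L : Type} [AddCommGroup L] [Module.Free ℤ L] [Module.Finite ℤ L] (B : LinearMap.BilinForm ℤ L)
    (hB : Function.Bijective B) (x : ℝ ⊗[ℤ] L) (hx : ∀ y : ℝ ⊗[ℤ] L, B.baseChange ℝ x y = 0) : x = 0 := by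
  classical
  let b := Module.Free.chooseBasis ℤ L
  -- a dual basis with respect to `B`
  have h1 : ∀ i, ∃ c : L, ∀ j, B (b j) c = if j = i then 1 else 0 := by
    intro i
    -- `B.flip` is bijective as well
    have hflip : Function.Bijective (B.flip : L → Module.Dual ℤ L) := by
      let Be : L ≃ₗ[ℤ] Module.Dual ℤ L := LinearEquiv.ofBijective B hB
      have h2 : (B.flip : L →ₗ[ℤ] Module.Dual ℤ L) =
          (Be.dualMap.toLinearMap ∘ₗ Module.Dual.eval ℤ L) := by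
        ext x y
        rfl
      rw [h2]
      have h3 : Function.Bijective (Module.Dual.eval ℤ L) := Module.bijective_dual_eval ℤ L
      exact Be.dualMap.bijective.comp h3
    obtain ⟨c, hc⟩ := hflip.2 (b.coord i)
    refine ⟨c, fun j => ?_⟩
    have h4 : B (b j) c = b.coord i (b j) := LinearMap.congr_fun hc (b j)
    rw [Module.Basis.coord_apply, Module.Basis.repr_self, Finsupp.single_apply] at h4
    exact h4
  choose c hc using h1
  let bR : Module.Basis _ ℝ (ℝ ⊗[ℤ] L) := b.baseChange ℝ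
  have h2 : ∀ i, bR.repr x i = 0 := by
    intro i
    have h3 := hx (1 ⊗ₜ c i)
    conv at h3 => lhs; rw [← bR.sum_repr x]
    rw [map_sum, LinearMap.sum_apply] at h3
    have h4 : ∀ j, (B.baseChange ℝ (bR.repr x j • bR j)) (1 ⊗ₜ[ℤ] c i) = if j = i then bR.repr x j else 0 := by
      intro j
      rw [map_smul, LinearMap.smul_apply, smul_eq_mul]
      have h5 : bR j = 1 ⊗ₜ b j := Module.Basis.baseChange_apply ℝ b j
      rw [h5, LinearMap.BilinForm.baseChange_tmul, hc]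
      by_cases hji : j = i
      · simp [hji]
      · simp [hji]
    rw [Finset.sum_congr rfl fun j _ => h4 j] at h3
    simpa using h3
  apply bR.repr.injective
  rw [map_zero]
  ext i
  exact h2 i

theorem main (H : Type) [CommRing H] [HopfAlgebra ℤ H] [Algebra.FiniteType ℤ H]
    (R : Type) [CommRing R] [Module.FaithfullyFlat ℤ R] (hE8 : Nonempty (LieG ℤ H R ≃ₗ⁅R⁆ Chev R))
    (hc : IsCompact (Set.range fun g : H →ₐ[ℤ] ℝ => (g : H → ℝ))) :
    ∃ W : Submodule ℝ (LieG ℤ H ℝ), W ≠ ⊥ ∧ W ≠ ⊤ ∧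
      ∀ g : Pt ℤ H ℤ, ∀ D ∈ W, Ad (g.bc (Algebra.ofId ℤ ℝ)) D ∈ W := by
  obtain ⟨e8⟩ := hE8
  have hfin := LZ_finite H
  have hfree := LZ_free H
  obtain ⟨eR, heR⟩ := exists_bc H R
  obtain ⟨e, he⟩ := exists_bc H ℝ
  have hfd : Module.Finite ℝ (LieG ℤ H ℝ) := Module.Finite.equiv e.toLinearEquiv
  have hneg : ∀ x : ℝ ⊗[ℤ] LZ H, x ≠ 0 → killingForm ℝ (ℝ ⊗[ℤ] LZ H) x x < 0 := by
    intro x hx
    have h1 : killingForm ℝ (LieG ℤ H ℝ) (e x) (e x) = killingForm ℝ (ℝ ⊗[ℤ] LZ H) x x :=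
      LieAlgebra.killingForm_of_equiv_apply e x x
    obtain ⟨h2, h3⟩ := killing_nonpos hfd hc (e x)
    rw [h1] at h2 h3
    refine lt_of_le_of_ne h2 fun h0 => hx ?_
    have h4 := h3 h0
    obtain ⟨B, hB, hBu⟩ := exists_form (LZ H) (eR.trans e8)
    refine baseChange_nondeg B hBu x fun y => ?_
    have h5 : killingForm ℝ (ℝ ⊗[ℤ] LZ H) = (killingForm ℤ (LZ H)).baseChange ℝ := LieModule.traceForm_baseChange ℤ _ _ ℝ
    have h6 : killingForm ℤ (LZ H) = (-60 : ℤ) • B := by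
      ext x y
      rw [hB, LinearMap.smul_apply, LinearMap.smul_apply, smul_eq_mul]
    have h7 : ((-60 : ℤ) • B).baseChange ℝ = (-60 : ℝ) • B.baseChange ℝ := by
      ext x y
      simp [LinearMap.BilinForm.baseChange_tmul]
    have h8 : killingForm ℝ (ℝ ⊗[ℤ] LZ H) x y = -60 * B.baseChange ℝ x y := by
      rw [h5, h6, h7, LinearMap.smul_apply, LinearMap.smul_apply, smul_eq_mul]
    have h9 : LieAlgebra.ad ℝ (ℝ ⊗[ℤ] LZ H) x = 0 := LinearMap.ext fun z => by
      rw [LieAlgebra.ad_apply, LinearMap.zero_apply]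
      have h11 : e ⁅x, z⁆ = e 0 := (LieEquiv.map_lie e x z).trans ((h4 _).trans (map_zero e.toLinearEquiv).symm)
      exact e.injective h11
    have h10 : killingForm ℝ (ℝ ⊗[ℤ] LZ H) x y = 0 := by
      rw [killingForm_apply_apply, h9, LinearMap.zero_comp, map_zero]
    rw [h8] at h10
    linarith
  obtain ⟨B, hL⟩ := exists_isLat (eR.trans e8) hneg
  by_contra hcon
  push Not at hcon
  refine Xc.not_irr hL fun W hW => ?_
  by_contra hW2
  push Not at hW2
  obtain ⟨hbot, htop⟩ := hW2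
  let e' : ℝ ⊗[ℤ] LZ H ≃ₗ[ℝ] LieG ℤ H ℝ := e.toLinearEquiv
  obtain ⟨g, D, hD, hD2⟩ := hcon (W.map e'.toLinearMap)
    (fun h => hbot (by rwa [Submodule.map_eq_bot_iff (e := e')] at h))
    (fun h => htop (by
      rw [eq_top_iff]
      intro x _
      have h1 : e' x ∈ W.map e'.toLinearMap := by rw [h]; trivial
      obtain ⟨y, hy, hyx⟩ := h1
      rwa [← e'.injective hyx]))
  obtain ⟨y, hy, rfl⟩ := hD
  refine hD2 ?_
  have h1 := hW (ofLie (AdZ g)) (Submodule.mem_map_of_mem hy)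
  have h2 := bc_Ad e he g y
  change Ad (g.bc (Algebra.ofId ℤ ℝ)) (e y) ∈ _
  rw [← h2]
  exact Submodule.mem_map_of_mem (f := e'.toLinearMap) h1

end Pool.Agent.Helper73.E8.GS
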