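import Pool.Agent.Helper73.E8.GS.Main

/-!
# The statement of the main theorem over the type `LieT` of the tangent vectors
-/

set_option autoImplicit false

namespace Pool.Agent.Helper73.E8.GS

open Pool.Agent.Helper73.E8

section

variable (k H A : Type*) [CommRing k] [CommRing H] [HopfAlgebra k H] [CommRing A] [Algebra k A]

/-- The Lie algebra of `G_A`, `G = Spec H`: the tangent vectors at the unit section. -/
def LieT : Type _ := {D : U k H A // IsDer D}

noncomputable instance : AddCommGroup (LieT k H A) := inferInstanceAs (AddCommGroup (LieG k H A))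

noncomputable instance : Module A (LieT k H A) := inferInstanceAs (Module A (LieG k H A))

end

variable {k H A : Type*} [CommRing k] [CommRing H] [HopfAlgebra k H] [CommRing A] [Algebra k A]

/-- The bracket of the Lie algebra of `G_A`: the commutator of the convolution product. -/
noncomputable instance : Bracket (LieT k H A) (LieT k H A) where
  bracket D E := ⟨D.1 * E.1 - E.1 * D.1, IsDer.commutator D.2 E.2⟩

/-- The adjoint action of `G(A)` on the Lie algebra of `G_A`. -/
noncomputable def AdT (g : Pt k H A) (D : LieT k H A) : LieT k H A := ⟨lin g * D.1 * lin g⁻¹, IsDer.conj D.2 g⟩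

variable (k H A) in
/-- The identity. -/
noncomputable def lieGT : LieG k H A ≃ₗ[A] LieT k H A where
  toFun D := D
  invFun D := D
  map_add' _ _ := rfl
  map_smul' _ _ := rfl
  left_inv _ := rfl
  right_inv _ := rfl

theorem main_named (H : Type) [CommRing H] [HopfAlgebra ℤ H] [Algebra.FiniteType ℤ H]
    (R : Type) [CommRing R] [Module.FaithfullyFlat ℤ R] (e : LieT ℤ H R ≃ₗ[R] Chev R) (he : ∀ D E, e ⁅D, E⁆ = ⁅e D, e E⁆)
    (hc : IsCompact (Set.range fun g : H →ₐ[ℤ] ℝ => (g : H → ℝ))) :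
    ∃ W : Submodule ℝ (LieT ℤ H ℝ), W ≠ ⊥ ∧ W ≠ ⊤ ∧
      ∀ g : Pt ℤ H ℤ, ∀ D ∈ W, AdT (g.bc (Algebra.ofId ℤ ℝ)) D ∈ W := by
  obtain ⟨W, h1, h2, h3⟩ := main H R ⟨{ (lieGT ℤ H R).trans e with map_lie' := he _ _ }⟩ hc
  let e : LieG ℤ H ℝ ≃ₗ[ℝ] LieT ℤ H ℝ := lieGT ℤ H ℝ
  refine ⟨W.map e.toLinearMap, ?_, ?_, ?_⟩
  · rwa [Ne, Submodule.map_eq_bot_iff (e := e)]
  · intro h
    refine h2 (eq_top_iff.2 fun x _ => ?_)
    have h4 : e x ∈ W.map e.toLinearMap := by rw [h]; trivial
    obtain ⟨y, hy, hyx⟩ := h4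
    rwa [← e.injective hyx]
  · rintro g _ ⟨D, hD, rfl⟩
    exact ⟨_, h3 g D hD, rfl⟩

end Pool.Agent.Helper73.E8.GS
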