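import Pool.Agent.Helper73.E8.GS.Main

/-!
# The Lie algebra of an affine group scheme as a structure of its own (short instances)

`Lie k H A` is the type of the `D` in `U k H A` with `IsDer D`; addition, scalar multiplication, bracket and adjoint action are those of
`LieG k H A`. The only purpose is that the statement of the final theorem prints shortly.
-/

set_option autoImplicit false

open Coalgebra WithConv TensorProduct

namespace Pool.Agent.Helper73.E8.GS

/-- The Lie algebra of `G_A`, `G = Spec H`. -/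
@[ext] structure Lie (k H A : Type*) [CommRing k] [CommRing H] [HopfAlgebra k H] [CommRing A] [Algebra k A] where
  toU : U k H A
  isDer : IsDer toU

namespace Lie

variable {k H A : Type*} [CommRing k] [CommRing H] [HopfAlgebra k H] [CommRing A] [Algebra k A]

theorem left_inv (D : Lie k H A) : (⟨(⟨D.toU, D.isDer⟩ : LieG k H A).1, (⟨D.toU, D.isDer⟩ : LieG k H A).2⟩ : Lie k H A) = D := rfl

theorem right_inv (D : LieG k H A) :
    (⟨(⟨D.1, D.2⟩ : Lie k H A).toU, (⟨D.1, D.2⟩ : Lie k H A).isDer⟩ : LieG k H A) = D := rfl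

/-- The elements of the submodule `LieG`. -/
def equiv : Lie k H A ≃ LieG k H A where
  toFun D := ⟨D.toU, D.isDer⟩
  invFun D := ⟨D.1, D.2⟩
  left_inv := left_inv
  right_inv := right_inv

noncomputable instance : AddCommGroup (Lie k H A) := equiv.addCommGroup

noncomputable instance : Module A (Lie k H A) := equiv.module A

@[simp] theorem toU_add (x y : Lie k H A) : (x + y).toU = x.toU + y.toU := rfl
@[simp] theorem toU_smul (r : A) (x : Lie k H A) : (r • x).toU = r • x.toU := rfl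
@[simp] theorem toU_zero : (0 : Lie k H A).toU = 0 := rfl

/-- The commutator of the convolution product. -/
noncomputable def brk (D E : Lie k H A) : Lie k H A := ⟨D.toU * E.toU - E.toU * D.toU, IsDer.commutator D.isDer E.isDer⟩

noncomputable instance : Bracket (Lie k H A) (Lie k H A) := ⟨brk⟩

@[simp] theorem toU_brk (D E : Lie k H A) : (⁅D, E⁆ : Lie k H A).toU = D.toU * E.toU - E.toU * D.toU := rfl

theorem add_brk (x y z : Lie k H A) : ⁅x + y, z⁆ = ⁅x, z⁆ + ⁅y, z⁆ := by
  apply Lie.ext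
  simp only [toU_brk, toU_add, add_mul, mul_add]
  abel

theorem brk_add (x y z : Lie k H A) : ⁅x, y + z⁆ = ⁅x, y⁆ + ⁅x, z⁆ := by
  apply Lie.ext
  simp only [toU_brk, toU_add, add_mul, mul_add]
  abel

theorem brk_self (x : Lie k H A) : ⁅x, x⁆ = 0 := by
  apply Lie.ext
  simp only [toU_brk, sub_self, toU_zero]

theorem jacobi (x y z : Lie k H A) : ⁅x, ⁅y, z⁆⁆ = ⁅⁅x, y⁆, z⁆ + ⁅y, ⁅x, z⁆⁆ := by
  apply Lie.ext
  simp only [toU_brk, toU_add, mul_sub, sub_mul, mul_assoc]
  abel

theorem brk_smul (r : A) (x y : Lie k H A) : ⁅x, r • y⁆ = r • ⁅x, y⁆ := by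
  apply Lie.ext
  simp only [toU_brk, toU_smul, mul_smul_comm, smul_mul_assoc, smul_sub]

noncomputable instance : LieRing (Lie k H A) where
  add_lie := add_brk
  lie_add := brk_add
  lie_self := brk_self
  leibniz_lie := jacobi

noncomputable instance : LieAlgebra A (Lie k H A) where
  lie_smul := brk_smul

/-- The adjoint action of `G(A)` on the Lie algebra of `G_A`: `D ↦ g D g⁻¹`. -/
noncomputable def Ad (g : Pt k H A) (D : Lie k H A) : Lie k H A := ⟨lin g * D.toU * lin g⁻¹, IsDer.conj D.isDer g⟩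

variable (k H A) in
/-- `Lie` and `LieG` are the same Lie algebra. -/
noncomputable def lieEquiv : Lie k H A ≃ₗ⁅A⁆ LieG k H A where
  toFun := equiv
  map_add' _ _ := rfl
  map_smul' _ _ := rfl
  map_lie' := rfl
  invFun := equiv.symm
  left_inv := left_inv
  right_inv := right_inv

theorem lieEquiv_Ad (g : Pt k H A) (D : Lie k H A) : lieEquiv k H A (Ad g D) = GS.Ad g (lieEquiv k H A D) := rfl

end Lie

theorem main' (H : Type) [CommRing H] [HopfAlgebra ℤ H] [Algebra.FiniteType ℤ H]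
    (R : Type) [CommRing R] [Module.FaithfullyFlat ℤ R] (hE8 : Nonempty (Lie ℤ H R ≃ₗ⁅R⁆ Chev R))
    (hc : IsCompact (Set.range fun g : H →ₐ[ℤ] ℝ => (g : H → ℝ))) :
    ∃ W : Submodule ℝ (Lie ℤ H ℝ), W ≠ ⊥ ∧ W ≠ ⊤ ∧
      ∀ g : Pt ℤ H ℤ, ∀ D ∈ W, Lie.Ad (g.bc (Algebra.ofId ℤ ℝ)) D ∈ W := by
  obtain ⟨e⟩ := hE8
  obtain ⟨W, h1, h2, h3⟩ := main H R ⟨(Lie.lieEquiv ℤ H R).symm.trans e⟩ hc
  let e' : Lie ℤ H ℝ ≃ₗ[ℝ] LieG ℤ H ℝ := (Lie.lieEquiv ℤ H ℝ).toLinearEquiv
  have he' : ∀ D : Lie ℤ H ℝ, e' D = Lie.lieEquiv ℤ H ℝ D := fun _ => rfl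
  refine ⟨W.comap e'.toLinearMap, ?_, ?_, ?_⟩
  · intro h
    apply h1
    rw [eq_bot_iff]
    intro x hx
    have h4 : e'.symm x ∈ W.comap e'.toLinearMap := by
      rw [Submodule.mem_comap, LinearEquiv.coe_coe, LinearEquiv.apply_symm_apply]
      exact hx
    rw [h, Submodule.mem_bot] at h4
    have h5 : x = e' 0 := by rw [← h4, LinearEquiv.apply_symm_apply]
    rw [h5, map_zero]
    exact Submodule.zero_mem _
  · intro h
    apply h2
    rw [eq_top_iff]
    intro x _
    have h4 : e'.symm x ∈ W.comap e'.toLinearMap := by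
      rw [h]
      exact Submodule.mem_top
    rw [Submodule.mem_comap, LinearEquiv.coe_coe, LinearEquiv.apply_symm_apply] at h4
    exact h4
  · intro g D hD
    rw [Submodule.mem_comap, LinearEquiv.coe_coe, he'] at hD ⊢
    rw [Lie.lieEquiv_Ad]
    exact h3 g _ hD

end Pool.Agent.Helper73.E8.GS
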